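import Mathlib

set_option autoImplicit false

open MvPolynomial

namespace Pool.Agent.Helper14.HDefs

/-- The field of algebraic numbers. -/
abbrev QQ : Type := AlgebraicClosure ℚ

theorem isInt (x : QQ) : IsIntegral ℚ x := by
  obtain ⟨p, hm, he⟩ := ((AlgebraicClosure.isAlgebraic ℚ).isAlgebraic x).isIntegral
  refine ⟨p, hm, ?_⟩
  have h1 : (algebraMap ℚ QQ) = @algebraMap ℚ QQ _ _ (AlgebraicClosure.instAlgebra ℚ) :=
    RingHom.ext_rat _ _
  rw [h1]
  exact he

theorem fd_adjoin (S : Set QQ) [Finite S] : FiniteDimensional ℚ (IntermediateField.adjoin ℚ S) :=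
  IntermediateField.finiteDimensional_adjoin (fun x _ => isInt x)

theorem nf_of_fd (F : IntermediateField ℚ QQ) [FiniteDimensional ℚ F] : NumberField F := {}

/-- The absolute logarithmic Weil height of a tuple `x` of algebraic numbers, computed in the number
field `K` generated by the coordinates: `(1 / [K : ℚ]) * ∑_v [K_v : ℚ_v] log max_i |x_i|_v`
(here `Height.logHeight` is the unnormalized height over `K` of Mathlib). -/
noncomputable def absHeight {κ : Type} [Finite κ] (x : κ → QQ) : ℝ :=
  haveI : FiniteDimensional ℚ (IntermediateField.adjoin ℚ (Set.range x)) := fd_adjoin _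
  haveI : NumberField (IntermediateField.adjoin ℚ (Set.range x)) := nf_of_fd _
  Height.logHeight (fun i => (⟨x i, IntermediateField.subset_adjoin ℚ _ (Set.mem_range_self i)⟩ :
    IntermediateField.adjoin ℚ (Set.range x))) /
    Module.finrank ℚ (IntermediateField.adjoin ℚ (Set.range x))

/-- Projective `N`-space over the algebraic numbers. -/
abbrev PN (N : ℕ) : Type := Projectivization QQ (Fin (N + 1) → QQ)

/-- The absolute logarithmic Weil height of a point. -/
noncomputable def ht {N : ℕ} (P : PN N) : ℝ := absHeight P.rep

/-- A rational self-map of degree `d` of projective `N`-space: `N + 1` homogeneous polynomials of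
degree `d` without common factor. -/
structure RatMap (N d : ℕ) where
  /-- the coordinates of the map -/
  f : Fin (N + 1) → MvPolynomial (Fin (N + 1)) QQ
  homog : ∀ j, (f j).IsHomogeneous d
  coprime : ∀ g, (∀ j, g ∣ f j) → IsUnit g

variable {N d : ℕ}

/-- The values of the coordinate polynomials at (a representative of) a point. -/
noncomputable def RatMap.val (φ : RatMap N d) (P : PN N) : Fin (N + 1) → QQ :=
  fun j => eval P.rep (φ.f j)

/-- The map is defined at `P` when its coordinate polynomials do not all vanish at `P`. -/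
def RatMap.DefinedAt (φ : RatMap N d) (P : PN N) : Prop := φ.val P ≠ 0

/-- The image point. -/
noncomputable def RatMap.app (φ : RatMap N d) (P : PN N) (h : φ.DefinedAt P) : PN N :=
  Projectivization.mk QQ (φ.val P) h

/-- The image is Zariski dense: the only form vanishing on the whole image is zero. -/
def RatMap.Dominant (φ : RatMap N d) : Prop :=
  ∀ (n : ℕ) (G : MvPolynomial (Fin (N + 1)) QQ), G.IsHomogeneous n →
    (∀ (P : PN N) (h : φ.DefinedAt P), eval (φ.app P h).rep G = 0) → G = 0

/-- Zariski open subsets of projective space: complements of common zero loci of forms. -/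
def IsZariskiOpen (U : Set (PN N)) : Prop :=
  ∃ S : Set (MvPolynomial (Fin (N + 1)) QQ), (∀ G ∈ S, ∃ n, G.IsHomogeneous n) ∧
    U = {P | ∃ G ∈ S, eval P.rep G ≠ 0}

open Classical in
/-- The quotient `h(f(P)) / h(P)` (with value `0` where `f` is not defined). -/
noncomputable def RatMap.ratio (φ : RatMap N d) (P : PN N) : ℝ :=
  if h : φ.DefinedAt P then ht (φ.app P h) / ht P else 0

/-- The height expansion ratio `μ(f)`: the supremum over nonempty Zariski open sets `U` of the lower
limit of `h(f(P)) / h(P)` as `h(P) → ∞`, `P` in `U` and in the domain of `f`. -/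
noncomputable def RatMap.mu (φ : RatMap N d) : EReal :=
  ⨆ (U : Set (PN N)) (_ : IsZariskiOpen U ∧ U.Nonempty),
    Filter.liminf (fun P => ((φ.ratio P : ℝ) : EReal))
      (Filter.comap ht Filter.atTop ⊓ Filter.principal {P | P ∈ U ∧ φ.DefinedAt P})

/-- The infimum of `μ(f)` over the dominant rational self-maps of degree `d`. -/
noncomputable def muBar (N d : ℕ) : EReal :=
  ⨅ (φ : RatMap N d) (_ : φ.Dominant), φ.mu

end Pool.Agent.Helper14.HDefs
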