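import Mathlib
import Pool.Agent.Helper14.HDefs

set_option autoImplicit false

open NumberField Height Pool.Agent.Helper14.HDefs

namespace Pool.Agent.Helper14.AbsH

section ext

variable {K L : Type} [Field K] [NumberField K] [Field L] [NumberField L] [Algebra K L]

open Classical in
theorem card_ext (ψ : K →+* ℂ) :
    (Finset.univ.filter (fun φ : L →+* ℂ => φ.comp (algebraMap K L) = ψ)).card
      = Module.finrank K L := by
  let _ : Algebra K ℂ := ψ.toAlgebra
  have hfin : FiniteDimensional K L := Module.Finite.of_restrictScalars_finite ℚ K L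
  rw [← AlgHom.card K L ℂ, ← Fintype.card_coe]
  refine Fintype.card_congr ?_
  refine {
    toFun := fun φ => { (φ.1 : L →+* ℂ) with
      commutes' := fun r => by
        have h := (Finset.mem_filter.mp φ.2).2
        exact RingHom.congr_fun h r }
    invFun := fun φ => ⟨φ.toRingHom, by
      rw [Finset.mem_filter]
      refine ⟨Finset.mem_univ _, ?_⟩
      ext r
      exact φ.commutes r⟩
    left_inv := fun φ => by
      apply Subtype.ext
      rfl
    right_inv := fun φ => by
      ext x
      rfl }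

open Classical in
theorem arch_prod (g : InfinitePlace K → ℝ) :
    ∏ v : InfinitePlace K, g v ^ v.mult = ∏ φ : K →+* ℂ, g (InfinitePlace.mk φ) := by
  rw [← Finset.prod_fiberwise (Finset.univ : Finset (K →+* ℂ)) (fun φ => InfinitePlace.mk φ)]
  apply Finset.prod_congr rfl
  intro v _
  rw [← InfinitePlace.card_filter_mk_eq v, Finset.prod_congr rfl (g := fun _ => g v),
    Finset.prod_const]
  intro φ hφ
  rw [(Finset.mem_filter.mp hφ).2]

open Classical in
theorem emb_prod (g : (K →+* ℂ) → ℝ) :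
    ∏ φ : L →+* ℂ, g (φ.comp (algebraMap K L)) = (∏ ψ : K →+* ℂ, g ψ) ^ Module.finrank K L := by
  rw [← Finset.prod_fiberwise (Finset.univ : Finset (L →+* ℂ))
    (fun φ => φ.comp (algebraMap K L)), ← Finset.prod_pow]
  apply Finset.prod_congr rfl
  intro ψ _
  rw [← card_ext (L := L) ψ, Finset.prod_congr rfl (g := fun _ => g ψ), Finset.prod_const]
  intro φ hφ
  rw [(Finset.mem_filter.mp hφ).2]

theorem arch_ext {κ : Type} (x : κ → K) :
    ∏ v : InfinitePlace L, (⨆ i, v (algebraMap K L (x i))) ^ v.mult =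
      (∏ v : InfinitePlace K, (⨆ i, v (x i)) ^ v.mult) ^ Module.finrank K L := by
  rw [arch_prod (fun v : InfinitePlace L => ⨆ i, v (algebraMap K L (x i))),
    arch_prod (fun v : InfinitePlace K => ⨆ i, v (x i)),
    ← emb_prod (L := L) (fun ψ => ⨆ i, (InfinitePlace.mk ψ) (x i))]
  rfl

theorem finrank_int : Module.finrank (𝓞 K) (𝓞 L) = Module.finrank K L := by
  symm
  exact IsFractionRing.finrank_eq (𝓞 K) K (𝓞 L) L

theorem mulHeight_ext_int {κ : Type} [Finite κ] {x : κ → 𝓞 K} (hx : x ≠ 0) :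
    mulHeight (fun i => algebraMap K L (x i : K)) =
      mulHeight (fun i => (x i : K)) ^ Module.finrank K L := by
  have hx1 : (fun i => (x i : K)) ≠ 0 := by
    intro h
    apply hx
    funext i
    have := congrFun h i
    exact RingOfIntegers.ext this
  have hx2 : (fun i => algebraMap K L (x i : K)) ≠ 0 := by
    intro h
    apply hx1
    funext i
    have := congrFun h i
    simpa using this
  rw [NumberField.mulHeight_eq hx1, NumberField.mulHeight_eq hx2, arch_ext, mul_pow]
  congr 1
  have h1 := NumberField.absNorm_mul_finprod_finitePlace_eq_one hx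
  let y : κ → 𝓞 L := fun i => algebraMap (𝓞 K) (𝓞 L) (x i)
  have hy : y ≠ 0 := by
    intro h
    apply hx2
    funext i
    have := congrFun h i
    have h3 : ((y i : 𝓞 L) : L) = 0 := by rw [this]; rfl
    exact h3
  have h2 := NumberField.absNorm_mul_finprod_finitePlace_eq_one hy
  have h3 : Ideal.span (Set.range y) = (Ideal.span (Set.range x)).map (algebraMap (𝓞 K) (𝓞 L)) := by
    rw [Ideal.map_span, ← Set.range_comp]
    rfl
  rw [h3, Ideal.absNorm_algebraMap, finrank_int, Nat.cast_pow] at h2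
  have h4 : (Ideal.absNorm (Ideal.span (Set.range x)) : ℝ) ≠ 0 := by
    intro h
    rw [h, zero_mul] at h1
    exact zero_ne_one h1
  have h5 : ∏ᶠ v : FinitePlace K, ⨆ i, v (x i : K) =
      (Ideal.absNorm (Ideal.span (Set.range x)) : ℝ)⁻¹ := eq_inv_of_mul_eq_one_right h1
  have h6 : ∏ᶠ v : FinitePlace L, ⨆ i, v (y i : L) =
      ((Ideal.absNorm (Ideal.span (Set.range x)) : ℝ) ^ Module.finrank K L)⁻¹ :=
    eq_inv_of_mul_eq_one_right h2
  rw [h5, inv_pow, ← h6]
  rfl

theorem mulHeight_ext {κ : Type} [Finite κ] (x : κ → K) :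
    mulHeight (fun i => algebraMap K L (x i)) = mulHeight x ^ Module.finrank K L := by
  by_cases hx : x = 0
  · subst hx
    simp only [Pi.zero_apply, map_zero]
    rw [mulHeight_zero, one_pow]
    exact mulHeight_zero
  have := Fintype.ofFinite κ
  obtain ⟨b, hb⟩ := IsLocalization.exist_integer_multiples_of_finite (nonZeroDivisors (𝓞 K)) x
  choose z hz using hb
  have hb0 : (algebraMap (𝓞 K) K b) ≠ 0 := by
    have h := nonZeroDivisors.coe_ne_zero b
    intro h2
    exact h (by simp at h2)
  have h1 : (fun i => (z i : K)) = (algebraMap (𝓞 K) K b) • x := by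
    funext i
    have := hz i
    rw [Pi.smul_apply, smul_eq_mul]
    rw [Algebra.smul_def] at this
    exact this
  have hz0 : z ≠ 0 := by
    intro h
    apply hx
    have h2 : (algebraMap (𝓞 K) K b) • x = 0 := by
      rw [← h1, h]
      funext i
      rfl
    exact (smul_eq_zero.mp h2).resolve_left hb0
  have h2 := mulHeight_ext_int (L := L) hz0
  rw [h1, mulHeight_smul_eq_mulHeight x hb0] at h2
  rw [← h2]
  have h3 : (fun i => algebraMap K L (z i : K)) =
      (algebraMap K L (algebraMap (𝓞 K) K b)) • (fun i => algebraMap K L (x i)) := by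
    funext i
    have := congrFun h1 i
    rw [Pi.smul_apply, smul_eq_mul] at this
    rw [Pi.smul_apply, smul_eq_mul, ← map_mul, ← this]
  rw [h3, mulHeight_smul_eq_mulHeight]
  exact (map_ne_zero _).mpr hb0

theorem logHeight_ext {κ : Type} [Finite κ] (x : κ → K) :
    logHeight (fun i => algebraMap K L (x i)) = Module.finrank K L * logHeight x := by
  rw [logHeight_eq_log_mulHeight, logHeight_eq_log_mulHeight, mulHeight_ext, Real.log_pow]

end ext

section absolute

theorem absHeight_eq {κ : Type} [Finite κ] (x : κ → QQ) (F : IntermediateField ℚ QQ)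
    [FiniteDimensional ℚ F] [NumberField F] (hF : ∀ i, x i ∈ F) :
    absHeight x = Height.logHeight (fun i => (⟨x i, hF i⟩ : F)) / Module.finrank ℚ F := by
  have : FiniteDimensional ℚ (IntermediateField.adjoin ℚ (Set.range x)) := fd_adjoin _
  have : NumberField (IntermediateField.adjoin ℚ (Set.range x)) := nf_of_fd _
  have hle : IntermediateField.adjoin ℚ (Set.range x) ≤ F := by
    rw [IntermediateField.adjoin_le_iff]
    rintro _ ⟨i, rfl⟩
    exact hF i
  let _ : Algebra (IntermediateField.adjoin ℚ (Set.range x)) F :=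
    (IntermediateField.inclusion hle).toRingHom.toAlgebra
  have h1 := logHeight_ext (K := IntermediateField.adjoin ℚ (Set.range x)) (L := F)
    (fun i => (⟨x i, IntermediateField.subset_adjoin ℚ _ (Set.mem_range_self i)⟩ :
    IntermediateField.adjoin ℚ (Set.range x)))
  have h2 : (fun i => algebraMap (IntermediateField.adjoin ℚ (Set.range x)) F
      (⟨x i, IntermediateField.subset_adjoin ℚ _ (Set.mem_range_self i)⟩ :
    IntermediateField.adjoin ℚ (Set.range x))) = fun i => (⟨x i, hF i⟩ : F) := by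
    funext i
    rfl
  rw [h2] at h1
  have h3 : Module.finrank ℚ (IntermediateField.adjoin ℚ (Set.range x)) *
      Module.finrank (IntermediateField.adjoin ℚ (Set.range x)) F = Module.finrank ℚ F :=
    Module.finrank_mul_finrank _ _ _
  have h4 : (0 : ℝ) < Module.finrank ℚ (IntermediateField.adjoin ℚ (Set.range x)) := by
    exact_mod_cast Module.finrank_pos
  have h5 : (0 : ℝ) < Module.finrank ℚ F := by
    exact_mod_cast Module.finrank_pos
  have h6 : (Module.finrank ℚ (IntermediateField.adjoin ℚ (Set.range x)) : ℝ) *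
      Module.finrank (IntermediateField.adjoin ℚ (Set.range x)) F = Module.finrank ℚ F := by
    exact_mod_cast h3
  rw [h1, absHeight, div_eq_div_iff h4.ne' h5.ne', ← h6]
  ring

/-- A finite set of algebraic numbers lies in a number field. -/
theorem exists_field {κ : Type} [Finite κ] (x : κ → QQ) :
    ∃ F : IntermediateField ℚ QQ, FiniteDimensional ℚ F ∧ ∀ i, x i ∈ F :=
  ⟨IntermediateField.adjoin ℚ (Set.range x), fd_adjoin _,
    fun i => IntermediateField.subset_adjoin ℚ _ (Set.mem_range_self i)⟩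

theorem absHeight_nonneg {κ : Type} [Finite κ] (x : κ → QQ) : 0 ≤ absHeight x := by
  obtain ⟨F, hfd, hF⟩ := exists_field x
  have := nf_of_fd F
  rw [absHeight_eq x F hF]
  exact div_nonneg (logHeight_nonneg _) (Nat.cast_nonneg _)

theorem absHeight_zero {κ : Type} [Finite κ] : absHeight (0 : κ → QQ) = 0 := by
  obtain ⟨F, hfd, hF⟩ := exists_field (0 : κ → QQ)
  have := nf_of_fd F
  rw [absHeight_eq _ F hF]
  have : (fun i => (⟨(0 : κ → QQ) i, hF i⟩ : F)) = 0 := by
    funext i; rfl
  rw [this, logHeight_zero, zero_div]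

theorem absHeight_smul {κ : Type} [Finite κ] (x : κ → QQ) {c : QQ} (hc : c ≠ 0) :
    absHeight (c • x) = absHeight x := by
  obtain ⟨F, hfd, hF⟩ := exists_field (Sum.elim x (fun _ : Unit => c))
  have := nf_of_fd F
  have hx : ∀ i, x i ∈ F := fun i => hF (Sum.inl i)
  have hcF : c ∈ F := hF (Sum.inr ())
  rw [absHeight_eq x F hx, absHeight_eq (c • x) F (fun i => F.mul_mem hcF (hx i))]
  congr 1
  have : (fun i => (⟨(c • x) i, F.mul_mem hcF (hx i)⟩ : F)) =
      (⟨c, hcF⟩ : F) • (fun i => (⟨x i, hx i⟩ : F)) := by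
    funext i; rfl
  rw [this]
  apply logHeight_smul_eq_logHeight
  intro h
  apply hc
  exact congrArg Subtype.val h

theorem absHeight_comp_le {κ κ' : Type} [Finite κ] [Finite κ'] (f : κ → κ') (x : κ' → QQ) :
    absHeight (x ∘ f) ≤ absHeight x := by
  obtain ⟨F, hfd, hF⟩ := exists_field x
  have := nf_of_fd F
  rw [absHeight_eq x F hF, absHeight_eq (x ∘ f) F (fun i => hF (f i))]
  apply div_le_div_of_nonneg_right _ (Nat.cast_nonneg _)
  exact logHeight_comp_le f (fun i => (⟨x i, hF i⟩ : F))

theorem absHeight_linear {κ κ' : Type} [Fintype κ] [Finite κ'] (A : κ' × κ → QQ) (x : κ → QQ) :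
    absHeight (fun j => ∑ i, A (j, i) * x i) ≤
      Real.log (Nat.card κ) + absHeight A + absHeight x := by
  obtain ⟨F, hfd, hF⟩ := exists_field (Sum.elim A x)
  have := nf_of_fd F
  have hA : ∀ i, A i ∈ F := fun i => hF (Sum.inl i)
  have hx : ∀ i, x i ∈ F := fun i => hF (Sum.inr i)
  rw [absHeight_eq x F hx, absHeight_eq A F hA,
    absHeight_eq _ F (fun j => F.sum_mem (fun i _ => F.mul_mem (hA (j, i)) (hx i)))]
  have h := logHeight_linearMap_apply_le (fun a => (⟨A a, hA a⟩ : F)) (fun i => (⟨x i, hx i⟩ : F))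
  have h0 : (0 : ℝ) < Module.finrank ℚ F := by exact_mod_cast Module.finrank_pos
  rw [NumberField.totalWeight_eq_finrank] at h
  have h1 : (fun j => (⟨∑ i, A (j, i) * x i,
      F.sum_mem (fun i _ => F.mul_mem (hA (j, i)) (hx i))⟩ : F)) =
      fun j => ∑ i, (⟨A (j, i), hA (j, i)⟩ : F) * (⟨x i, hx i⟩ : F) := by
    funext j
    apply Subtype.ext
    simp
  rw [h1]
  rw [div_le_iff₀ h0, add_mul, add_mul, div_mul_cancel₀ _ h0.ne', div_mul_cancel₀ _ h0.ne']
  linarith

theorem absHeight_prod {κ : Type} [Finite κ] (n : ℕ) {x : κ → QQ} (hx0 : x ≠ 0) :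
    absHeight (fun I : Fin n → κ => ∏ a, x (I a)) = n * absHeight x := by
  obtain ⟨F, hfd, hF⟩ := exists_field x
  have := nf_of_fd F
  rw [absHeight_eq x F hF, absHeight_eq _ F (fun I => F.prod_mem (fun a _ => hF (I a)))]
  have hy0 : (fun i => (⟨x i, hF i⟩ : F)) ≠ 0 := by
    intro h
    apply hx0
    funext i
    exact congrArg Subtype.val (congrFun h i)
  have h := logHeight_fun_prod_eq (α := Fin n) (ι := fun _ => κ)
    (x := fun _ => (fun i => (⟨x i, hF i⟩ : F))) (fun _ => hy0)
  have h1 : (fun I : Fin n → κ => (⟨∏ a, x (I a), F.prod_mem (fun a _ => hF (I a))⟩ : F)) =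
      fun I : Fin n → κ => ∏ a, (⟨x (I a), hF (I a)⟩ : F) := by
    funext I
    apply Subtype.ext
    simp
  rw [h1, h, Finset.sum_const, Finset.card_univ, Fintype.card_fin, nsmul_eq_mul, mul_div_assoc]

end absolute

section gelfond

open Polynomial

theorem iSup_eq_gaussNorm {K : Type} [Field K] (v : AbsoluteValue K ℝ) (p : K[X]) {m : ℕ}
    (hm : p.natDegree ≤ m) : ⨆ i : Fin (m + 1), v (p.coeff i) = p.gaussNorm v 1 := by
  apply le_antisymm
  · apply ciSup_le
    intro i
    have := p.le_gaussNorm v zero_le_one i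
    rwa [one_pow, mul_one] at this
  · obtain ⟨i, hi⟩ := p.exists_eq_gaussNorm v 1
    rw [one_pow, mul_one] at hi
    rw [hi]
    by_cases h : i ≤ m
    · exact Finite.le_ciSup (fun i : Fin (m + 1) => v (p.coeff i)) ⟨i, Nat.lt_succ_of_le h⟩
    · rw [coeff_eq_zero_of_natDegree_lt (by omega), map_zero]
      exact Real.iSup_nonneg (fun _ => v.nonneg _)

theorem arch_bound (p q : ℂ[X]) {m n : ℕ} (hm : p.natDegree ≤ m) (hn : q.natDegree ≤ n) :
    (⨆ i : Fin (m + 1), ‖p.coeff i‖) * (⨆ j : Fin (n + 1), ‖q.coeff j‖) ≤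
      (2 ^ m * 2 ^ n * (m + n + 1 : ℕ)) * ⨆ k : Fin (m + n + 1), ‖(p * q).coeff k‖ := by
  have h1 : ∀ (r : ℂ[X]) (l : ℕ), r.natDegree ≤ l →
      ⨆ i : Fin (l + 1), ‖r.coeff i‖ ≤ 2 ^ l * r.mahlerMeasure := by
    intro r l hl
    apply ciSup_le
    intro i
    refine (norm_coeff_le_choose_mul_mahlerMeasure i r).trans ?_
    apply mul_le_mul_of_nonneg_right _ r.mahlerMeasure_nonneg
    have h2 : r.natDegree.choose i ≤ 2 ^ r.natDegree := Nat.choose_le_two_pow _ _
    calc ((r.natDegree.choose i : ℕ) : ℝ) ≤ ((2 ^ r.natDegree : ℕ) : ℝ) := by exact_mod_cast h2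
      _ = 2 ^ r.natDegree := by push_cast; ring
      _ ≤ 2 ^ l := pow_le_pow_right₀ (by norm_num) hl
  have h2 : (p * q).mahlerMeasure ≤ (m + n + 1 : ℕ) * ⨆ k : Fin (m + n + 1), ‖(p * q).coeff k‖ := by
    refine (mahlerMeasure_le_sum_norm_coeff _).trans ?_
    have hdeg : (p * q).natDegree < m + n + 1 := by
      have := natDegree_mul_le (p := p) (q := q)
      omega
    rw [sum_over_range' _ (by simp) (m + n + 1) hdeg, ← Fin.sum_univ_eq_sum_range
      (fun k => ‖(p * q).coeff k‖) (m + n + 1)]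
    refine (Finset.sum_le_card_nsmul Finset.univ _
      (⨆ k : Fin (m + n + 1), ‖(p * q).coeff k‖) ?_).trans ?_
    · intro k _
      exact Finite.le_ciSup (fun k : Fin (m + n + 1) => ‖(p * q).coeff k‖) k
    · rw [Finset.card_univ, Fintype.card_fin, nsmul_eq_mul]
  have h3 := h1 p m hm
  have h4 := h1 q n hn
  calc (⨆ i : Fin (m + 1), ‖p.coeff i‖) * (⨆ j : Fin (n + 1), ‖q.coeff j‖)
      ≤ (2 ^ m * p.mahlerMeasure) * (2 ^ n * q.mahlerMeasure) := by
        apply mul_le_mul h3 h4 (Real.iSup_nonneg (fun _ => norm_nonneg _))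
        exact mul_nonneg (by positivity) p.mahlerMeasure_nonneg
    _ = (2 ^ m * 2 ^ n) * (p * q).mahlerMeasure := by rw [mahlerMeasure_mul]; ring
    _ ≤ (2 ^ m * 2 ^ n) * ((m + n + 1 : ℕ) * ⨆ k : Fin (m + n + 1), ‖(p * q).coeff k‖) := by
        apply mul_le_mul_of_nonneg_left h2 (by positivity)
    _ = _ := by ring

theorem hfms {K : Type} [Field K] [NumberField K] {κ : Type} [Finite κ] {x : κ → K} (hx : x ≠ 0) :
    (fun v : FinitePlace K => ⨆ i, v (x i)).HasFiniteMulSupport := by
  have h1 : (⋃ i : {i // x i ≠ 0}, Function.mulSupport (fun v : FinitePlace K => v (x i.1))).Finite := by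
    apply Set.finite_iUnion
    intro i
    exact FinitePlace.hasFiniteMulSupport i.2
  refine h1.subset ?_
  intro v hv
  by_contra hne
  apply hv
  have h2 : ∀ i, x i ≠ 0 → v (x i) = 1 := by
    intro i hi
    by_contra h3
    apply hne
    exact Set.mem_iUnion.mpr ⟨⟨i, hi⟩, h3⟩
  obtain ⟨i0, hi0⟩ := Function.ne_iff.mp hx
  have : Nonempty κ := ⟨i0⟩
  apply le_antisymm
  · apply ciSup_le
    intro i
    by_cases hi : x i = 0
    · rw [hi, map_zero]; exact zero_le_one
    · exact (h2 i hi).le
  · rw [← h2 i0 hi0]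
    exact Finite.le_ciSup (fun i => v (x i)) i0

theorem gelfond_field {K : Type} [Field K] [NumberField K] (p q : K[X]) (hp : p ≠ 0) (hq : q ≠ 0)
    {m n : ℕ} (hm : p.natDegree ≤ m) (hn : q.natDegree ≤ n) :
    mulHeight (fun i : Fin (m + 1) => p.coeff i) * mulHeight (fun j : Fin (n + 1) => q.coeff j) ≤
      (2 ^ m * 2 ^ n * (m + n + 1 : ℕ)) ^ Module.finrank ℚ K *
        mulHeight (fun k : Fin (m + n + 1) => (p * q).coeff k) := by
  have key : ∀ (r : K[X]) (l : ℕ), r ≠ 0 → r.natDegree ≤ l →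
      (fun i : Fin (l + 1) => r.coeff i) ≠ 0 := by
    intro r l hr hl h
    apply hr
    ext i
    by_cases hi : i ≤ l
    · exact congrFun h ⟨i, Nat.lt_succ_of_le hi⟩
    · rw [coeff_eq_zero_of_natDegree_lt (by omega), coeff_zero]
  have hpq : (p * q).natDegree ≤ m + n := natDegree_mul_le.trans (Nat.add_le_add hm hn)
  have h1 := key p m hp hm
  have h2 := key q n hq hn
  have h3 := key (p * q) (m + n) (mul_ne_zero hp hq) hpq
  rw [NumberField.mulHeight_eq h1, NumberField.mulHeight_eq h2, NumberField.mulHeight_eq h3,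
    mul_mul_mul_comm]
  have hfin : (∏ᶠ v : FinitePlace K, ⨆ i : Fin (m + 1), v (p.coeff i)) *
      ∏ᶠ v : FinitePlace K, ⨆ i : Fin (n + 1), v (q.coeff i) =
      ∏ᶠ v : FinitePlace K, ⨆ i : Fin (m + n + 1), v ((p * q).coeff i) := by
    rw [← finprod_mul_distrib (hfms h1) (hfms h2)]
    apply finprod_congr
    intro v
    have e1 := iSup_eq_gaussNorm v.1 p hm
    have e2 := iSup_eq_gaussNorm v.1 q hn
    have e3 := iSup_eq_gaussNorm v.1 (p * q) hpq
    have hna : IsNonarchimedean v.1 := FinitePlace.add_le v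
    have e4 := gaussNorm_mul hna one_pos p q
    rw [← e1, ← e2, ← e3] at e4
    exact e4.symm
  rw [hfin, ← mul_assoc]
  apply mul_le_mul_of_nonneg_right
  · rw [← Finset.prod_mul_distrib, ← InfinitePlace.sum_mult_eq, ← Finset.prod_pow_eq_pow_sum,
      ← Finset.prod_mul_distrib]
    apply Finset.prod_le_prod
    · intro v _
      exact mul_nonneg (pow_nonneg (Real.iSup_nonneg (fun _ => apply_nonneg v _)) _)
        (pow_nonneg (Real.iSup_nonneg (fun _ => apply_nonneg v _)) _)
    · intro v _
      rw [← mul_pow, ← mul_pow]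
      apply pow_le_pow_left₀
      · exact mul_nonneg (Real.iSup_nonneg (fun _ => apply_nonneg v _))
          (Real.iSup_nonneg (fun _ => apply_nonneg v _))
      · have h4 := arch_bound (p.map v.embedding) (q.map v.embedding) (m := m) (n := n)
          (natDegree_map_le.trans hm) (natDegree_map_le.trans hn)
        rw [← Polynomial.map_mul] at h4
        simp only [coeff_map, InfinitePlace.norm_embedding_eq] at h4
        exact h4
  · exact finprod_nonneg (fun v => Real.iSup_nonneg (fun _ => apply_nonneg v _))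

/-- The height of a product of polynomials is at least the sum of the heights minus a constant. -/
theorem gelfond (p q : QQ[X]) (hp : p ≠ 0) (hq : q ≠ 0)
    {m n : ℕ} (hm : p.natDegree ≤ m) (hn : q.natDegree ≤ n) :
    absHeight (fun i : Fin (m + 1) => p.coeff i) + absHeight (fun j : Fin (n + 1) => q.coeff j) ≤
      Real.log (2 ^ m * 2 ^ n * (m + n + 1 : ℕ)) +
        absHeight (fun k : Fin (m + n + 1) => (p * q).coeff k) := by
  obtain ⟨F, hfd, hF⟩ := exists_field (Sum.elim (fun i : Fin (m + 1) => p.coeff i)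
    (fun j : Fin (n + 1) => q.coeff j))
  have := nf_of_fd F
  have hpF : ∀ i, p.coeff i ∈ F := by
    intro i
    by_cases hi : i ≤ m
    · exact hF (Sum.inl ⟨i, Nat.lt_succ_of_le hi⟩)
    · rw [coeff_eq_zero_of_natDegree_lt (by omega)]; exact F.zero_mem
  have hqF : ∀ i, q.coeff i ∈ F := by
    intro i
    by_cases hi : i ≤ n
    · exact hF (Sum.inr ⟨i, Nat.lt_succ_of_le hi⟩)
    · rw [coeff_eq_zero_of_natDegree_lt (by omega)]; exact F.zero_mem
  obtain ⟨p', rfl⟩ : ∃ p' : F[X], p'.map (algebraMap F QQ) = p := by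
    have : p ∈ lifts (algebraMap F QQ) := by
      rw [lifts_iff_coeff_lifts]
      intro i
      exact ⟨⟨p.coeff i, hpF i⟩, rfl⟩
    exact (mem_lifts p).mp this
  obtain ⟨q', rfl⟩ : ∃ q' : F[X], q'.map (algebraMap F QQ) = q := by
    have : q ∈ lifts (algebraMap F QQ) := by
      rw [lifts_iff_coeff_lifts]
      intro i
      exact ⟨⟨q.coeff i, hqF i⟩, rfl⟩
    exact (mem_lifts q).mp this
  have hinj : Function.Injective (algebraMap F QQ) := (algebraMap F QQ).injective
  rw [natDegree_map_eq_of_injective hinj] at hm hn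
  have hp' : p' ≠ 0 := by rintro rfl; simp at hp
  have hq' : q' ≠ 0 := by rintro rfl; simp at hq
  have h1 := gelfond_field p' q' hp' hq' hm hn
  have e : ∀ (r : F[X]) (l : ℕ), absHeight (fun i : Fin (l + 1) => (r.map (algebraMap F QQ)).coeff i) =
      Height.logHeight (fun i : Fin (l + 1) => r.coeff i) / Module.finrank ℚ F := by
    intro r l
    have h3 : ∀ i : Fin (l + 1), (r.map (algebraMap F QQ)).coeff i ∈ F := by
      intro i
      rw [coeff_map]
      exact (r.coeff i).2
    rw [absHeight_eq _ F h3]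
    congr 2
    funext i
    apply Subtype.ext
    simp only [coeff_map]
    rfl
  rw [← Polynomial.map_mul, e, e, e]
  have h0 : (0 : ℝ) < Module.finrank ℚ F := by exact_mod_cast Module.finrank_pos
  have h2 := Real.log_le_log (mul_pos (mulHeight_pos _) (mulHeight_pos _)) h1
  have hC : (0 : ℝ) < 2 ^ m * 2 ^ n * (m + n + 1 : ℕ) := by positivity
  rw [Real.log_mul (mulHeight_ne_zero _) (mulHeight_ne_zero _),
    Real.log_mul (pow_ne_zero _ hC.ne') (mulHeight_ne_zero _), Real.log_pow] at h2
  rw [← add_div, div_le_iff₀ h0, add_mul, div_mul_cancel₀ _ h0.ne']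
  simp only [logHeight_eq_log_mulHeight]
  linarith

end gelfond

end Pool.Agent.Helper14.AbsH
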