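import Mathlib

set_option autoImplicit false
set_option linter.unusedSectionVars false
set_option linter.unusedDecidableInType false
set_option linter.unusedFintypeInType false

open MvPolynomial

namespace Pool.Agent.Helper14.Elim

section general

variable {ι : Type} [Fintype ι] [DecidableEq ι] {R : Type} [CommRing R]

/-- Monomials of degree `m`. -/
abbrev Mon (ι : Type) [Fintype ι] [DecidableEq ι] (m : ℕ) : Type :=
  {c : ι →₀ ℕ // c ∈ Finset.finsuppAntidiag (Finset.univ : Finset ι) m}

theorem mem_mon {m : ℕ} {c : ι →₀ ℕ} :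
    c ∈ Finset.finsuppAntidiag (Finset.univ : Finset ι) m ↔ c.degree = m := by
  rw [Finset.mem_finsuppAntidiag, Finsupp.degree_eq_sum]
  simp

/-- Coordinatewise quotient. -/
noncomputable def quo (d : ℕ) (c : ι →₀ ℕ) : ι →₀ ℕ := c.mapRange (fun n => n / d) (Nat.zero_div d)

/-- Coordinatewise remainder. -/
noncomputable def rmd (d : ℕ) (c : ι →₀ ℕ) : ι →₀ ℕ := c.mapRange (fun n => n % d) (Nat.zero_mod d)

theorem quo_rmd (d : ℕ) (c : ι →₀ ℕ) : d • quo d c + rmd d c = c := by
  ext i
  simp [quo, rmd, Nat.div_add_mod]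

theorem degree_quo_rmd (d : ℕ) (c : ι →₀ ℕ) : d * (quo d c).degree + (rmd d c).degree = c.degree := by
  conv_rhs => rw [← quo_rmd d c]
  rw [map_add, map_nsmul, smul_eq_mul]

/-- The product of powers of `h` given by the quotient times the remainder monomial. -/
noncomputable def pr (h : ι → MvPolynomial ι R) (d : ℕ) (c : ι →₀ ℕ) : MvPolynomial ι R :=
  aeval h (monomial (quo d c) (1 : R)) * monomial (rmd d c) (1 : R)

theorem pr_hom {h : ι → MvPolynomial ι R} {d : ℕ} (hh : ∀ j, (h j).IsHomogeneous d) (c : ι →₀ ℕ) :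
    (pr h d c).IsHomogeneous c.degree := by
  rw [← degree_quo_rmd d c]
  refine IsHomogeneous.mul ?_ ?_
  · have := (isHomogeneous_monomial (1 : R) (rfl : (quo d c).degree = (quo d c).degree)).aeval
      (g := h) (n := d) hh
    simpa using this
  · exact isHomogeneous_monomial _ rfl

/-- The matrix of the products in terms of the monomials. -/
noncomputable def Phi (h : ι → MvPolynomial ι R) (d m : ℕ) : Matrix (Mon ι m) (Mon ι m) R :=
  Matrix.of fun c c' => coeff c'.1 (pr h d c.1)

theorem sum_mon {m : ℕ} {p : MvPolynomial ι R} (hp : p.IsHomogeneous m) :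
    p = ∑ c : Mon ι m, C (coeff c.1 p) * monomial c.1 (1 : R) := by
  conv_lhs => rw [p.as_sum]
  have h1 : ∑ v ∈ p.support, monomial v (coeff v p) =
      ∑ v ∈ Finset.finsuppAntidiag (Finset.univ : Finset ι) m, monomial v (coeff v p) := by
    apply Finset.sum_subset
    · intro v hv
      rw [mem_mon]
      by_contra hne
      exact (mem_support_iff.mp hv) (hp.coeff_eq_zero hne)
    · intro v _ hv
      rw [notMem_support_iff.mp hv]
      simp
  rw [h1, ← Finset.sum_coe_sort]
  apply Finset.sum_congr rfl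
  intro c _
  rw [C_mul_monomial, mul_one]

theorem expand {h : ι → MvPolynomial ι R} {d : ℕ} (hh : ∀ j, (h j).IsHomogeneous d) {m : ℕ}
    (c : Mon ι m) :
    C (Phi h d m).det * monomial c.1 (1 : R) =
      ∑ c' : Mon ι m, C ((Phi h d m).adjugate c c') * pr h d c'.1 := by
  have h1 : ∀ c' : Mon ι m, pr h d c'.1 =
      ∑ c'' : Mon ι m, C (Phi h d m c' c'') * monomial c''.1 (1 : R) := by
    intro c'
    have := sum_mon (m := m) (p := pr h d c'.1)
      (by have := pr_hom hh c'.1; rwa [mem_mon.mp c'.2] at this)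
    exact this
  have h2 : ∀ c'' : Mon ι m, ∑ c' : Mon ι m, (Phi h d m).adjugate c c' * Phi h d m c' c'' =
      if c = c'' then (Phi h d m).det else 0 := by
    intro c''
    have := congrFun (congrFun (Matrix.adjugate_mul (Phi h d m)) c) c''
    rw [Matrix.mul_apply] at this
    rw [this]
    simp [Matrix.smul_apply, Matrix.one_apply]
  calc C (Phi h d m).det * monomial c.1 (1 : R)
      = ∑ c'' : Mon ι m, C (if c = c'' then (Phi h d m).det else 0) * monomial c''.1 (1 : R) := by
        rw [Finset.sum_eq_single c]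
        · simp
        · intro b _ hb
          rw [if_neg (Ne.symm hb)]; simp
        · intro h; exact absurd (Finset.mem_univ _) h
    _ = ∑ c'' : Mon ι m, ∑ c' : Mon ι m,
          C ((Phi h d m).adjugate c c') * (C (Phi h d m c' c'') * monomial c''.1 (1 : R)) := by
        apply Finset.sum_congr rfl
        intro c'' _
        rw [← h2 c'', map_sum, Finset.sum_mul]
        apply Finset.sum_congr rfl
        intro c' _
        rw [C_mul, mul_assoc]
    _ = ∑ c' : Mon ι m, C ((Phi h d m).adjugate c c') * pr h d c'.1 := by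
        rw [Finset.sum_comm]
        apply Finset.sum_congr rfl
        intro c' _
        rw [← Finset.mul_sum, ← h1 c']

/-- Index type: exponent vectors with entries less than `d` and total degree divisible by `d`. -/
abbrev Bt (ι : Type) [Fintype ι] (d : ℕ) : Type := {b : ι → Fin d // d ∣ ∑ i, (b i : ℕ)}

/-- The exponent vector. -/
noncomputable def bm {d : ℕ} (b : Bt ι d) : ι →₀ ℕ :=
  Finsupp.equivFunOnFinite.symm (fun i => ((b.1 i : Fin d) : ℕ))

theorem bm_apply {d : ℕ} (b : Bt ι d) (i : ι) : bm b i = (b.1 i : ℕ) := rfl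

theorem bm_degree {d : ℕ} (b : Bt ι d) : (bm b).degree = ∑ i, (b.1 i : ℕ) := by
  rw [Finsupp.degree_eq_sum]; rfl

theorem bm_inj {d : ℕ} {a b : Bt ι d} (h : bm a = bm b) : a = b := by
  apply Subtype.ext
  funext i
  apply Fin.ext
  have := DFunLike.congr_fun h i
  simpa [bm_apply] using this

/-- The weight. -/
def wt {d : ℕ} (b : Bt ι d) : ℕ := (∑ i, (b.1 i : ℕ)) / d

theorem wt_mul {d : ℕ} (b : Bt ι d) : d * wt b = (bm b).degree := by
  rw [bm_degree, wt]; exact Nat.mul_div_cancel' b.2

/-- The coefficient polynomials of the expansion. -/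
noncomputable def Ex (h : ι → MvPolynomial ι R) (d m : ℕ) (b : Bt ι d) (p : MvPolynomial ι R) :
    MvPolynomial ι R :=
  ∑ c : Mon ι m, ∑ c' : Mon ι m, if rmd d c'.1 = bm b then
    C (coeff c.1 p * (Phi h d m).adjugate c c') * monomial (quo d c'.1) (1 : R) else 0

theorem exists_bt {d : ℕ} (hd : 0 < d) {c : ι →₀ ℕ} (hc : d ∣ c.degree) :
    ∃ b : Bt ι d, rmd d c = bm b := by
  have h1 : ∀ i, rmd d c i < d := fun i => Nat.mod_lt _ hd
  have h2 : d ∣ (rmd d c).degree := by
    have := degree_quo_rmd d c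
    rw [← this] at hc
    exact (Nat.dvd_add_right (dvd_mul_right d _)).mp hc
  refine ⟨⟨fun i => ⟨rmd d c i, h1 i⟩, ?_⟩, ?_⟩
  · rw [Finsupp.degree_eq_sum] at h2
    exact h2
  · ext i; rfl

theorem aeval_C_mul (h : ι → MvPolynomial ι R) (x : R) (q : MvPolynomial ι R) :
    aeval h (C x * q) = C x * aeval h q := by
  rw [map_mul, aeval_C, algebraMap_eq]

theorem Ex_spec {h : ι → MvPolynomial ι R} {d : ℕ} (hd : 0 < d) (hh : ∀ j, (h j).IsHomogeneous d)
    {m : ℕ} (hm : d ∣ m) {p : MvPolynomial ι R} (hp : p.IsHomogeneous m) :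
    C (Phi h d m).det * p = ∑ b : Bt ι d, aeval h (Ex h d m b p) * monomial (bm b) (1 : R) := by
  have h1 : C (Phi h d m).det * p = ∑ c : Mon ι m, ∑ c' : Mon ι m,
      C (coeff c.1 p * (Phi h d m).adjugate c c') * pr h d c'.1 := by
    conv_lhs => rw [sum_mon hp]
    rw [Finset.mul_sum]
    apply Finset.sum_congr rfl
    intro c _
    rw [mul_left_comm, expand hh c, Finset.mul_sum]
    apply Finset.sum_congr rfl
    intro c' _
    rw [C_mul, mul_assoc]
  rw [h1]
  unfold Ex
  simp only [map_sum, Finset.sum_mul]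
  conv_rhs => rw [Finset.sum_comm]
  apply Finset.sum_congr rfl
  intro c _
  conv_rhs => rw [Finset.sum_comm]
  apply Finset.sum_congr rfl
  intro c' _
  obtain ⟨b, hb⟩ := exists_bt hd (c := c'.1) (by rw [mem_mon.mp c'.2]; exact hm)
  rw [Finset.sum_eq_single b]
  · rw [if_pos hb, aeval_C_mul, pr, hb, mul_assoc]
  · intro b' _ hb'
    rw [if_neg]
    · simp
    · intro h; exact hb' (bm_inj (h.symm.trans hb))
  · intro h; exact absurd (Finset.mem_univ _) h

theorem Ex_hom {h : ι → MvPolynomial ι R} {d : ℕ} (hd : 0 < d) {m n : ℕ} {b : Bt ι d}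
    (hn : d * n + (bm b).degree = m) (p : MvPolynomial ι R) :
    (Ex h d m b p).IsHomogeneous n := by
  unfold Ex
  apply IsHomogeneous.sum
  intro c _
  apply IsHomogeneous.sum
  intro c' _
  split_ifs with h1
  · apply IsHomogeneous.C_mul
    apply isHomogeneous_monomial
    have h2 := degree_quo_rmd d c'.1
    rw [mem_mon.mp c'.2, h1] at h2
    have h3 : d * (quo d c'.1).degree = d * n := by omega
    exact Nat.eq_of_mul_eq_mul_left hd h3
  · exact isHomogeneous_zero _ _ _

theorem Ex_zero {h : ι → MvPolynomial ι R} {d : ℕ} {m : ℕ} {b : Bt ι d}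
    (hn : m < (bm b).degree) (p : MvPolynomial ι R) :
    Ex h d m b p = 0 := by
  unfold Ex
  apply Finset.sum_eq_zero
  intro c _
  apply Finset.sum_eq_zero
  intro c' _
  rw [if_neg]
  intro h1
  have h2 := degree_quo_rmd d c'.1
  rw [mem_mon.mp c'.2, h1] at h2
  omega

/-- The matrix of the multiplication by `l ^ d`. -/
noncomputable def Th (h : ι → MvPolynomial ι R) (d : ℕ) (l : MvPolynomial ι R) :
    Matrix (Bt ι d) (Bt ι d) (MvPolynomial ι R) :=
  Matrix.of fun a b => Ex h d (d + (bm a).degree) b (l ^ d * monomial (bm a) (1 : R))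

theorem Th_spec {h : ι → MvPolynomial ι R} {d : ℕ} (hd : 0 < d) (hh : ∀ j, (h j).IsHomogeneous d)
    {l : MvPolynomial ι R} (hl : l.IsHomogeneous 1) (a : Bt ι d) :
    C (Phi h d (d + (bm a).degree)).det * (l ^ d * monomial (bm a) (1 : R)) =
      ∑ b : Bt ι d, aeval h (Th h d l a b) * monomial (bm b) (1 : R) := by
  apply Ex_spec hd hh
  · rw [← wt_mul a]; exact (dvd_refl d).add (dvd_mul_right d _)
  · have h1 := hl.pow d
    rw [one_mul] at h1
    exact h1.mul (isHomogeneous_monomial _ rfl)

/-- A matrix with weighted homogeneous entries has a homogeneous determinant. -/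
theorem det_hom {κ : Type} [Fintype κ] [DecidableEq κ] (w : κ → ℕ) (M : Matrix κ κ (MvPolynomial ι R))
    (h1 : ∀ a b n, n + w b = 1 + w a → (M a b).IsHomogeneous n)
    (h2 : ∀ a b, 1 + w a < w b → M a b = 0) : M.det.IsHomogeneous (Fintype.card κ) := by
  rw [Matrix.det_apply]
  apply IsHomogeneous.sum
  intro σ _
  have h3 : (∏ i, M (σ i) i).IsHomogeneous (Fintype.card κ) := by
    by_cases hz : ∃ i, 1 + w (σ i) < w i
    · obtain ⟨i, hi⟩ := hz
      have h8 : ∏ i, M (σ i) i = 0 := Finset.prod_eq_zero (Finset.mem_univ i) (h2 _ _ hi)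
      rw [h8]
      exact isHomogeneous_zero _ _ _
    · push Not at hz
      have h4 := IsHomogeneous.prod Finset.univ (fun i => M (σ i) i) (fun i => 1 + w (σ i) - w i)
        (fun i _ => h1 (σ i) i _ (Nat.sub_add_cancel (hz i)))
      have h5 : ∑ i, (1 + w (σ i) - w i) = Fintype.card κ := by
        have h6 : ∑ i, (1 + w (σ i) - w i) + ∑ i, w i = ∑ i, (1 + w (σ i)) := by
          rw [← Finset.sum_add_distrib]
          exact Finset.sum_congr rfl (fun i _ => Nat.sub_add_cancel (hz i))
        rw [Finset.sum_add_distrib, Equiv.sum_comp σ w] at h6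
        have h7 : ∑ _i : κ, 1 = Fintype.card κ := by simp
        omega
      rwa [h5] at h4
  rcases Int.units_eq_one_or (Equiv.Perm.sign σ) with h4 | h4
  · rw [h4, one_smul]; exact h3
  · rw [h4]
    have : (-1 : ℤˣ) • ∏ i, M (σ i) i = - ∏ i, M (σ i) i := by
      rw [Units.neg_smul, one_smul]
    rw [this]
    exact h3.neg

theorem Th_det_hom {h : ι → MvPolynomial ι R} {d : ℕ} (hd : 0 < d) (l : MvPolynomial ι R) :
    (Th h d l).det.IsHomogeneous (Fintype.card (Bt ι d)) := by
  apply det_hom (fun b => wt b)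
  · intro a b n hn
    apply Ex_hom hd
    rw [← wt_mul a, ← wt_mul b, ← mul_add, hn]; ring
  · intro a b hn
    apply Ex_zero
    rw [← wt_mul a, ← wt_mul b]
    calc d + d * wt a = d * (1 + wt a) := by ring
      _ < d * wt b := Nat.mul_lt_mul_of_pos_left hn hd

theorem Th_dvd [IsDomain R] {h : ι → MvPolynomial ι R} {d : ℕ} (hd : 0 < d)
    (hh : ∀ j, (h j).IsHomogeneous d) {l : MvPolynomial ι R} (hl : l.IsHomogeneous 1) :
    l ^ d ∣ aeval h (Th h d l).det := by
  let M : Matrix (Bt ι d) (Bt ι d) (MvPolynomial ι R) :=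
    Matrix.diagonal (fun a => C (Phi h d (d + (bm a).degree)).det * l ^ d)
      - (Th h d l).map (aeval h)
  have hM : M.det = 0 := by
    rw [← Matrix.exists_mulVec_eq_zero_iff]
    refine ⟨fun b => monomial (bm b) (1 : R), ?_, ?_⟩
    · intro hz
      have h0 : d ∣ ∑ i : ι, (((fun _ => ⟨0, hd⟩ : ι → Fin d) i : Fin d) : ℕ) := by simp
      have := congrFun hz ⟨fun _ => ⟨0, hd⟩, h0⟩
      simp at this
    · funext a
      rw [Matrix.sub_mulVec, Pi.sub_apply, Matrix.mulVec_diagonal, Pi.zero_apply, sub_eq_zero,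
        mul_assoc, Th_spec hd hh hl a]
      rfl
  let q := Ideal.Quotient.mk (Ideal.span {l ^ d})
  have h1 : q M.det = 0 := by rw [hM, map_zero]
  rw [RingHom.map_det] at h1
  have h2 : q.mapMatrix M = q.mapMatrix (- (Th h d l).map (aeval h)) := by
    ext a b
    simp only [M, RingHom.mapMatrix_apply, Matrix.map_apply, Matrix.sub_apply, Matrix.neg_apply]
    rw [sub_eq_add_neg, map_add]
    have : q (Matrix.diagonal (fun a => C (Phi h d (d + (bm a).degree)).det * l ^ d) a b) = 0 := by
      rw [Ideal.Quotient.eq_zero_iff_mem, Ideal.mem_span_singleton]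
      rw [Matrix.diagonal_apply]
      split_ifs
      · exact dvd_mul_left _ _
      · exact dvd_zero _
    rw [this, zero_add]
  rw [h2, ← RingHom.map_det, Matrix.det_neg, Ideal.Quotient.eq_zero_iff_mem,
    Ideal.mem_span_singleton] at h1
  have h3 : aeval h (Th h d l).det = ((Th h d l).map (aeval h)).det := by
    have := AlgHom.map_det (aeval h : MvPolynomial ι R →ₐ[R] MvPolynomial ι R) (Th h d l)
    rw [this]; rfl
  rw [h3]
  have h4 : IsUnit ((-1 : MvPolynomial ι R) ^ Fintype.card (Bt ι d)) := (isUnit_one.neg).pow _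
  exact (h4.dvd_mul_left).mp h1

section spec

variable {S : Type} [CommRing S]

theorem map_pr (ρ : R →+* S) (h : ι → MvPolynomial ι R) (d : ℕ) (c : ι →₀ ℕ) :
    MvPolynomial.map ρ (pr h d c) = pr (fun j => MvPolynomial.map ρ (h j)) d c := by
  unfold pr
  rw [map_mul, aeval_monomial, aeval_monomial, map_mul, map_monomial, Finsupp.prod, Finsupp.prod,
    map_prod]
  simp only [map_pow, map_one]

theorem pr_pow (d : ℕ) (c : ι →₀ ℕ) :
    pr (fun j => (X j : MvPolynomial ι S) ^ d) d c = monomial c (1 : S) := by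
  unfold pr
  have h1 : aeval (fun j => (X j : MvPolynomial ι S) ^ d) (monomial (quo d c) (1 : S))
      = monomial (d • quo d c) (1 : S) := by
    rw [aeval_monomial, map_one, one_mul, monomial_eq (s := d • quo d c), C_1, one_mul,
      Finsupp.prod_fintype _ _ (by simp), Finsupp.prod_fintype _ _ (by simp)]
    apply Finset.prod_congr rfl
    intro i _
    rw [← pow_mul, Finsupp.smul_apply, smul_eq_mul]
  rw [h1, monomial_mul, mul_one, quo_rmd]

theorem map_Phi (ρ : R →+* S) {h : ι → MvPolynomial ι R} {d : ℕ}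
    (hρ : ∀ j, MvPolynomial.map ρ (h j) = X j ^ d) (m : ℕ) :
    (Phi h d m).map ρ = 1 := by
  ext c c'
  rw [Matrix.map_apply, Phi, Matrix.of_apply, ← coeff_map, map_pr]
  have : (fun j => MvPolynomial.map ρ (h j)) = fun j => (X j : MvPolynomial ι S) ^ d := funext hρ
  rw [this, pr_pow, coeff_monomial, Matrix.one_apply]
  simp only [Subtype.ext_iff]

theorem map_adj (ρ : R →+* S) {h : ι → MvPolynomial ι R} {d : ℕ}
    (hρ : ∀ j, MvPolynomial.map ρ (h j) = X j ^ d) (m : ℕ) (c c' : Mon ι m) :
    ρ ((Phi h d m).adjugate c c') = if c = c' then 1 else 0 := by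
  have h1 := RingHom.map_adjugate ρ (Phi h d m)
  have h2 : ρ.mapMatrix (Phi h d m) = 1 := map_Phi ρ hρ m
  rw [h2, Matrix.adjugate_one] at h1
  have h3 := congrFun (congrFun h1 c) c'
  rw [RingHom.mapMatrix_apply, Matrix.map_apply, Matrix.one_apply] at h3
  exact h3

theorem map_Ex (ρ : R →+* S) {h : ι → MvPolynomial ι R} {d : ℕ}
    (hρ : ∀ j, MvPolynomial.map ρ (h j) = X j ^ d) (m : ℕ) (b : Bt ι d) (p : MvPolynomial ι R) :
    MvPolynomial.map ρ (Ex h d m b p) = ∑ c : Mon ι m, if rmd d c.1 = bm b then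
      C (coeff c.1 (MvPolynomial.map ρ p)) * monomial (quo d c.1) (1 : S) else 0 := by
  unfold Ex
  rw [map_sum]
  apply Finset.sum_congr rfl
  intro c _
  rw [map_sum, Finset.sum_eq_single c]
  · split_ifs with h1
    · rw [map_mul, map_C, map_mul, map_adj ρ hρ, if_pos rfl, mul_one, map_monomial, map_one,
        coeff_map]
    · rw [map_zero]
  · intro c' _ hc'
    split_ifs with h1
    · rw [map_mul, map_C, map_mul, map_adj ρ hρ, if_neg (Ne.symm hc'), mul_zero, C_0, zero_mul]
    · rw [map_zero]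
  · intro h1; exact absurd (Finset.mem_univ _) h1

theorem quo_single {d : ℕ} (hd : 0 < d) (i0 : ι) (b : Bt ι d) :
    quo d (Finsupp.single i0 d + bm b) = Finsupp.single i0 1 := by
  ext i
  simp only [quo, Finsupp.mapRange_apply, Finsupp.add_apply, bm_apply]
  by_cases h : i0 = i
  · subst h
    rw [Finsupp.single_eq_same, Finsupp.single_eq_same, Nat.add_div_left _ hd,
      Nat.div_eq_of_lt (b.1 i0).2]
  · rw [Finsupp.single_eq_of_ne (Ne.symm h), Finsupp.single_eq_of_ne (Ne.symm h), zero_add,
      Nat.div_eq_of_lt (b.1 i).2]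

theorem rmd_single {d : ℕ} (i0 : ι) (b : Bt ι d) :
    rmd d (Finsupp.single i0 d + bm b) = bm b := by
  ext i
  simp only [rmd, Finsupp.mapRange_apply, Finsupp.add_apply, bm_apply]
  by_cases h : i0 = i
  · subst h
    rw [Finsupp.single_eq_same, Nat.add_mod_left, Nat.mod_eq_of_lt (b.1 i0).2]
  · rw [Finsupp.single_eq_of_ne (Ne.symm h), zero_add, Nat.mod_eq_of_lt (b.1 i).2]

theorem map_Th (ρ : R →+* S) {h : ι → MvPolynomial ι R} {d : ℕ} (hd : 0 < d)
    (hρ : ∀ j, MvPolynomial.map ρ (h j) = X j ^ d) {l : MvPolynomial ι R} {i0 : ι}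
    (hl : MvPolynomial.map ρ l = X i0) :
    (Th h d l).map (MvPolynomial.map ρ) = Matrix.diagonal (fun _ => X i0) := by
  ext a b : 2
  rw [Matrix.map_apply, Th, Matrix.of_apply, map_Ex ρ hρ, map_mul, map_pow, hl, map_monomial,
    map_one, X_pow_eq_monomial, monomial_mul, mul_one]
  have hmem : Finsupp.single i0 d + bm a ∈
      Finset.finsuppAntidiag (Finset.univ : Finset ι) (d + (bm a).degree) := by
    rw [mem_mon, map_add, Finsupp.degree_single]
  rw [Finset.sum_eq_single ⟨Finsupp.single i0 d + bm a, hmem⟩]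
  · rw [rmd_single, quo_single hd, coeff_monomial, if_pos rfl, Matrix.diagonal_apply]
    by_cases hab : a = b
    · subst hab
      rw [if_pos rfl, if_pos rfl, C_1, one_mul, X]
    · rw [if_neg (fun h => hab (bm_inj h)), if_neg hab]
  · intro c _ hc
    split_ifs
    · rw [coeff_monomial, if_neg, C_0, zero_mul]
      intro h1
      apply hc
      apply Subtype.ext
      exact h1.symm
    · rfl
  · intro h1; exact absurd (Finset.mem_univ _) h1

theorem Th_det_ne_zero [Nontrivial S] (ρ : R →+* S) {h : ι → MvPolynomial ι R} {d : ℕ} (hd : 0 < d)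
    (hρ : ∀ j, MvPolynomial.map ρ (h j) = X j ^ d) {l : MvPolynomial ι R} {i0 : ι}
    (hl : MvPolynomial.map ρ l = X i0) : (Th h d l).det ≠ 0 := by
  intro h0
  have h1 := RingHom.map_det (MvPolynomial.map ρ) (Th h d l)
  rw [h0, map_zero, RingHom.mapMatrix_apply, map_Th ρ hd hρ hl, Matrix.det_diagonal,
    Finset.prod_const] at h1
  have h2 : coeff (Finsupp.single i0 (Finset.univ : Finset (Bt ι d)).card)
      ((X i0 : MvPolynomial ι S) ^ (Finset.univ : Finset (Bt ι d)).card) = 1 := by
    rw [X_pow_eq_monomial, coeff_monomial, if_pos rfl]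
  rw [← h1, coeff_zero] at h2
  exact zero_ne_one h2

end spec

section top

variable {A : Type} [CommRing A]

/-- Interchange of the variables. -/
noncomputable def psi : MvPolynomial ι (Polynomial A) →+* Polynomial (MvPolynomial ι A) :=
  eval₂Hom (Polynomial.mapRingHom (C : A →+* MvPolynomial ι A)) (fun i => Polynomial.C (X i))

theorem psi_map (p : MvPolynomial ι A) :
    psi (MvPolynomial.map Polynomial.C p) = Polynomial.C p := by
  unfold psi
  rw [eval₂Hom_map_hom]
  have h1 : (Polynomial.mapRingHom (C : A →+* MvPolynomial ι A)).comp Polynomial.C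
      = (Polynomial.C : MvPolynomial ι A →+* _).comp C := by
    ext a
    simp
  rw [h1]
  induction p using MvPolynomial.induction_on with
  | C a => simp
  | add p q hp hq => rw [map_add, hp, hq, map_add]
  | mul_X p i hp => rw [map_mul, hp, map_mul]; simp

/-- The deformation. -/
noncomputable def defo (f : ι → MvPolynomial ι A) (d : ℕ) (j : ι) : MvPolynomial ι (Polynomial A) :=
  X j ^ d + C Polynomial.X * MvPolynomial.map Polynomial.C (f j)

theorem psi_defo (f : ι → MvPolynomial ι A) (d : ℕ) (j : ι) :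
    psi (defo f d j) = Polynomial.C (X j ^ d) + Polynomial.X * Polynomial.C (f j) := by
  unfold defo
  rw [map_add, map_mul, psi_map, map_pow]
  simp [psi]

/-- The coefficient of the `k`-th power of the parameter. -/
noncomputable def topc (k : ℕ) (G : MvPolynomial ι (Polynomial A)) : MvPolynomial ι A :=
  ∑ e ∈ G.support, monomial e ((coeff e G).coeff k)

theorem coeff_topc (k : ℕ) (G : MvPolynomial ι (Polynomial A)) (e : ι →₀ ℕ) :
    coeff e (topc k G) = (coeff e G).coeff k := by
  unfold topc
  rw [coeff_sum]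
  simp only [coeff_monomial]
  rw [Finset.sum_ite_eq' G.support e (fun v => (coeff v G).coeff k)]
  split_ifs with h
  · rfl
  · rw [notMem_support_iff.mp h, Polynomial.coeff_zero]

theorem topc_hom {k E : ℕ} {G : MvPolynomial ι (Polynomial A)} (hG : G.IsHomogeneous E) :
    (topc k G).IsHomogeneous E := by
  unfold topc
  apply IsHomogeneous.sum
  intro e he
  apply isHomogeneous_monomial
  by_contra hne
  exact (mem_support_iff.mp he) (hG.coeff_eq_zero hne)

theorem prod_top {B : Type} [CommRing B] (p q : ι → B) (e : ι → ℕ) (s : Finset ι) :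
    (∏ i ∈ s, (Polynomial.C (p i) + Polynomial.X * Polynomial.C (q i)) ^ e i).natDegree ≤ ∑ i ∈ s, e i ∧
    (∏ i ∈ s, (Polynomial.C (p i) + Polynomial.X * Polynomial.C (q i)) ^ e i).coeff (∑ i ∈ s, e i)
      = ∏ i ∈ s, q i ^ e i := by
  have h0 : ∀ i, (Polynomial.C (p i) + Polynomial.X * Polynomial.C (q i)).natDegree ≤ 1 := by
    intro i
    refine (Polynomial.natDegree_add_le _ _).trans ?_
    rw [Polynomial.natDegree_C]
    refine max_le (by omega) ?_
    refine Polynomial.natDegree_mul_le.trans ?_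
    rw [Polynomial.natDegree_C]
    exact (Nat.add_zero _).le.trans Polynomial.natDegree_X_le
  have h1 : ∀ i, ((Polynomial.C (p i) + Polynomial.X * Polynomial.C (q i)) ^ e i).natDegree ≤ e i := by
    intro i
    refine Polynomial.natDegree_pow_le.trans ?_
    calc e i * _ ≤ e i * 1 := Nat.mul_le_mul_left _ (h0 i)
      _ = e i := mul_one _
  have h2 : ∀ i, ((Polynomial.C (p i) + Polynomial.X * Polynomial.C (q i)) ^ e i).coeff (e i)
      = q i ^ e i := by
    intro i
    have := Polynomial.coeff_pow_of_natDegree_le (m := e i) (h0 i)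
    rw [mul_one] at this
    rw [this]
    simp
  classical
  induction s using Finset.induction_on with
  | empty => simp
  | insert a s ha ih =>
    rw [Finset.prod_insert ha, Finset.prod_insert ha, Finset.sum_insert ha]
    refine ⟨?_, ?_⟩
    · exact Polynomial.natDegree_mul_le.trans (Nat.add_le_add (h1 a) ih.1)
    · rw [Polynomial.coeff_mul_add_eq_of_natDegree_le (h1 a) ih.1, h2, ih.2]

theorem coeff_psi_aeval (f : ι → MvPolynomial ι A) (d : ℕ) {k E : ℕ}
    {G : MvPolynomial ι (Polynomial A)} (hG : G.IsHomogeneous E)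
    (hk : ∀ e, (coeff e G).natDegree ≤ k) :
    (psi (aeval (defo f d) G)).coeff (k + E) = aeval f (topc k G) := by
  have h1 : psi (aeval (defo f d) G) =
      G.eval₂ (Polynomial.mapRingHom (C : A →+* MvPolynomial ι A)) (fun i => psi (defo f d i)) := by
    rw [aeval_def, ← coe_eval₂Hom, ← coe_eval₂Hom, ← RingHom.comp_apply, comp_eval₂Hom]
    congr 2
    apply RingHom.ext
    intro a
    rw [RingHom.comp_apply, algebraMap_eq]
    exact eval₂Hom_C _ _ _
  rw [h1, eval₂_eq', Polynomial.finsetSum_coeff]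
  unfold topc
  rw [map_sum]
  apply Finset.sum_congr rfl
  intro e he
  have hE : ∑ i, e i = E := by
    have h3 : e.degree = E := by
      by_contra hne
      exact (mem_support_iff.mp he) (hG.coeff_eq_zero hne)
    rw [← h3, Finsupp.degree_eq_sum]
  have h4 := prod_top (fun i => (X i : MvPolynomial ι A) ^ d) f e Finset.univ
  rw [hE] at h4
  simp only [psi_defo]
  have h5 : (Polynomial.mapRingHom (C : A →+* MvPolynomial ι A) (coeff e G)).natDegree ≤ k :=
    (Polynomial.natDegree_map_le).trans (hk e)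
  rw [Polynomial.coeff_mul_add_eq_of_natDegree_le h5 h4.1, h4.2, aeval_monomial,
    Polynomial.coe_mapRingHom, Polynomial.coeff_map, algebraMap_eq, Finsupp.prod_fintype _ _ (by simp)]

theorem elim [IsDomain A] {S : Type} [CommRing S] [Nontrivial S] (ε : A →+* S)
    {f : ι → MvPolynomial ι A} {d : ℕ} (hd : 0 < d) (hf : ∀ j, (f j).IsHomogeneous d)
    {l : MvPolynomial ι A} (hl : l.IsHomogeneous 1) {i0 : ι} (hε : MvPolynomial.map ε l = X i0) :
    ∃ G : MvPolynomial ι A, G ≠ 0 ∧ G.IsHomogeneous (Fintype.card (Bt ι d)) ∧ l ^ d ∣ aeval f G := by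
  have hh : ∀ j, (defo f d j).IsHomogeneous d := by
    intro j
    apply IsHomogeneous.add
    · have := (isHomogeneous_X (Polynomial A) j).pow d
      rwa [one_mul] at this
    · exact ((hf j).map _).C_mul _
  have hl' : (MvPolynomial.map Polynomial.C l : MvPolynomial ι (Polynomial A)).IsHomogeneous 1 :=
    hl.map _
  let ρ : Polynomial A →+* S := ε.comp (Polynomial.evalRingHom 0)
  have hρ : ∀ j, MvPolynomial.map ρ (defo f d j) = X j ^ d := by
    intro j
    unfold defo
    rw [map_add, map_mul, map_C]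
    have : ρ Polynomial.X = 0 := by simp [ρ]
    rw [this]
    simp
  have hρl : MvPolynomial.map ρ (MvPolynomial.map Polynomial.C l) = X i0 := by
    rw [MvPolynomial.map_map]
    have : ρ.comp Polynomial.C = ε := by ext a; simp [ρ]
    rw [this, hε]
  let G := (Th (defo f d) d (MvPolynomial.map Polynomial.C l)).det
  have hG0 : G ≠ 0 := Th_det_ne_zero ρ hd hρ hρl
  have hGh : G.IsHomogeneous (Fintype.card (Bt ι d)) := Th_det_hom hd _
  have hGd : (MvPolynomial.map Polynomial.C l) ^ d ∣ aeval (defo f d) G := Th_dvd hd hh hl'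
  let k := G.support.sup (fun e => (coeff e G).natDegree)
  have hk : ∀ e, (coeff e G).natDegree ≤ k := by
    intro e
    by_cases he : e ∈ G.support
    · exact Finset.le_sup (f := fun e => (coeff e G).natDegree) he
    · rw [notMem_support_iff.mp he]; simp
  refine ⟨topc k G, ?_, topc_hom hGh, ?_⟩
  · obtain ⟨e, he, hek⟩ := Finset.exists_mem_eq_sup G.support
      (Finset.nonempty_iff_ne_empty.mpr (by rwa [Ne, support_eq_empty]))
      (fun e => (coeff e G).natDegree)
    intro h0
    have h1 := coeff_topc k G e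
    rw [h0, coeff_zero] at h1
    have h2 : (coeff e G).leadingCoeff = 0 := by
      rw [Polynomial.leadingCoeff, ← hek]
      exact h1.symm
    rw [Polynomial.leadingCoeff_eq_zero] at h2
    exact (mem_support_iff.mp he) h2
  · rw [← coeff_psi_aeval f d hGh hk]
    have h1 : Polynomial.C (l ^ d) ∣ psi (aeval (defo f d) G) := by
      have := map_dvd psi hGd
      rwa [map_pow, psi_map, ← map_pow] at this
    exact (Polynomial.C_dvd_iff_dvd_coeff _ _).mp h1 _

end top

end general

end Pool.Agent.Helper14.Elim
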