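import Mathlib
import Pool.Agent.Helper14.HDefs
import Pool.Agent.Helper14.Elim
import Pool.Agent.Helper14.AbsHeight

set_option autoImplicit false

open MvPolynomial Pool.Agent.Helper14.HDefs Pool.Agent.Helper14.AbsH Pool.Agent.Helper14.Elim

namespace Pool.Agent.Helper14.HLower

/-- Monomial values as products. -/
theorem exists_index {κ : Type} [Fintype κ] (e : κ →₀ ℕ) {E : ℕ} (he : e.degree = E) :
    ∃ I : Fin E → κ, ∀ y : κ → QQ, ∏ a, y (I a) = ∏ i, y i ^ e i := by
  classical
  have hcard : (Finsupp.toMultiset e).card = E := by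
    rw [Finsupp.card_toMultiset, ← he]; rfl
  obtain ⟨L, hL⟩ := Quot.exists_rep (Finsupp.toMultiset e)
  have hL' : (L : Multiset κ) = Finsupp.toMultiset e := hL
  have hlen : L.length = E := by
    rw [← hcard, ← hL', Multiset.coe_card]
  subst hlen
  refine ⟨fun a => L.get a, ?_⟩
  intro y
  have h1 : ((Finsupp.toMultiset e).map y).prod = ∏ i, y i ^ e i := by
    rw [Finset.prod_multiset_map_count, Finsupp.toFinset_toMultiset]
    simp only [Finsupp.count_toMultiset]
    apply Finset.prod_subset (Finset.subset_univ _)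
    intro i _ hi
    rw [Finsupp.notMem_support_iff.mp hi, pow_zero]
  rw [← h1, ← hL', Multiset.map_coe, Multiset.prod_coe]
  rw [← List.prod_ofFn]
  congr 1
  apply List.ext_get
  · simp
  · intro n h1 h2
    simp

theorem absHeight_val_mk {N d : ℕ} (φ : RatMap N d) (P : PN N) (h : φ.DefinedAt P) :
    ht (φ.app P h) = absHeight (φ.val P) := by
  unfold ht RatMap.app
  obtain ⟨a, ha⟩ := Projectivization.exists_smul_eq_mk_rep QQ (φ.val P) h
  rw [← ha]
  exact absHeight_smul _ (Units.ne_zero a)

/-- Upper bound for the height of the coefficient vector of the value of a form with polynomial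
coefficients. -/
theorem coeff_bound {N E M : ℕ} (G : MvPolynomial (Fin (N + 1)) (Polynomial QQ))
    (hG : G.IsHomogeneous E) :
    ∃ C : ℝ, ∀ y : Fin (N + 1) → QQ, y ≠ 0 →
      absHeight (fun k : Fin (M + 1) => (eval (fun j => Polynomial.C (y j)) G).coeff k) ≤
        C + E * absHeight y := by
  let A : Fin (M + 1) × Mon (Fin (N + 1)) E → QQ := fun a => (coeff a.2.1 G).coeff a.1
  refine ⟨Real.log (Nat.card (Mon (Fin (N + 1)) E)) + absHeight A, ?_⟩
  intro y hy
  choose I hI using fun e : Mon (Fin (N + 1)) E => exists_index e.1 (mem_mon.mp e.2)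
  have h1 : (fun k : Fin (M + 1) => (eval (fun j => Polynomial.C (y j)) G).coeff k) =
      fun k => ∑ e : Mon (Fin (N + 1)) E, A (k, e) * ∏ a, y (I e a) := by
    funext k
    conv_lhs => rw [sum_mon hG]
    rw [map_sum, Polynomial.finsetSum_coeff]
    apply Finset.sum_congr rfl
    intro e _
    rw [hI e y, map_mul, eval_C, eval_monomial, one_mul, Finsupp.prod_fintype _ _ (by simp)]
    simp only [← Polynomial.C_pow, ← map_prod]
    rw [Polynomial.coeff_mul_C]
  rw [h1]
  refine (absHeight_linear A (fun e => ∏ a, y (I e a))).trans ?_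
  have h2 : absHeight (fun e : Mon (Fin (N + 1)) E => ∏ a, y (I e a)) ≤ E * absHeight y := by
    rw [← absHeight_prod E hy]
    exact absHeight_comp_le I (fun J : Fin E → Fin (N + 1) => ∏ a, y (J a))
  linarith

/-- The polynomial with coefficients the coordinates. -/
noncomputable def lin {N : ℕ} (x : Fin (N + 1) → QQ) : Polynomial QQ :=
  ∑ i : Fin (N + 1), Polynomial.X ^ (i : ℕ) * Polynomial.C (x i)

theorem lin_coeff {N : ℕ} (x : Fin (N + 1) → QQ) (k : Fin (N + 1)) : (lin x).coeff k = x k := by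
  unfold lin
  rw [Polynomial.finsetSum_coeff, Finset.sum_eq_single k]
  · rw [Polynomial.coeff_mul_C, Polynomial.coeff_X_pow, if_pos rfl, one_mul]
  · intro b _ hb
    rw [Polynomial.coeff_mul_C, Polynomial.coeff_X_pow, if_neg, zero_mul]
    intro h
    exact hb (Fin.ext h.symm)
  · intro h; exact absurd (Finset.mem_univ _) h

theorem lin_natDegree {N : ℕ} (x : Fin (N + 1) → QQ) : (lin x).natDegree ≤ N := by
  unfold lin
  apply Polynomial.natDegree_sum_le_of_forall_le
  intro i _
  refine Polynomial.natDegree_mul_le.trans ?_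
  rw [Polynomial.natDegree_C, add_zero, Polynomial.natDegree_X_pow]
  omega

theorem lin_ne_zero {N : ℕ} {x : Fin (N + 1) → QQ} (hx : x ≠ 0) : lin x ≠ 0 := by
  intro h
  apply hx
  funext k
  rw [← lin_coeff x k, h, Polynomial.coeff_zero]
  rfl

theorem lin_pow_bound (N d : ℕ) : ∃ C : ℝ, ∀ x : Fin (N + 1) → QQ, x ≠ 0 →
    d * absHeight x ≤ C + absHeight (fun k : Fin (d * N + 1) => ((lin x) ^ d).coeff k) := by
  induction d with
  | zero =>
    refine ⟨0, ?_⟩
    intro x _
    rw [Nat.cast_zero, zero_mul, zero_add]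
    exact absHeight_nonneg _
  | succ d ih =>
    obtain ⟨C, hC⟩ := ih
    refine ⟨C + Real.log (2 ^ (d * N) * 2 ^ N * (d * N + N + 1 : ℕ)), ?_⟩
    intro x hx
    have h1 := hC x hx
    have h2 := gelfond ((lin x) ^ d) (lin x) (pow_ne_zero _ (lin_ne_zero hx)) (lin_ne_zero hx)
      (m := d * N) (n := N)
      (Polynomial.natDegree_pow_le.trans (Nat.mul_le_mul_left _ (lin_natDegree x)))
      (lin_natDegree x)
    have h3 : (fun j : Fin (N + 1) => (lin x).coeff j) = x := by
      funext j
      exact lin_coeff x j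
    rw [h3, ← pow_succ] at h2
    have h4 : (d + 1) * N = d * N + N := by ring
    rw [h4]
    push_cast
    push_cast at h2
    linarith

theorem card_bt {N d : ℕ} (hd : 0 < d) : Fintype.card (Bt (Fin (N + 1)) d) = d ^ N := by
  have h1 : Fintype.card (Fin N → Fin d) = d ^ N := by
    rw [Fintype.card_fun, Fintype.card_fin, Fintype.card_fin]
  rw [← h1]
  apply Fintype.card_of_bijective (f := fun b : Bt (Fin (N + 1)) d => fun i : Fin N => b.1 i.succ)
  constructor
  · intro b b' h
    apply Subtype.ext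
    have h2 : ∀ i : Fin N, b.1 i.succ = b'.1 i.succ := fun i => congrFun h i
    have h3 := b.2
    have h4 := b'.2
    rw [Fin.sum_univ_succ] at h3 h4
    have h5 : ∑ i : Fin N, ((b.1 i.succ : Fin d) : ℕ) = ∑ i : Fin N, ((b'.1 i.succ : Fin d) : ℕ) :=
      Finset.sum_congr rfl (fun i _ => by rw [h2 i])
    rw [h5] at h3
    have h6 : ((b.1 0 : Fin d) : ℕ) = ((b'.1 0 : Fin d) : ℕ) := by
      have h7 : ((b.1 0 : Fin d) : ℕ) ≡ ((b'.1 0 : Fin d) : ℕ) [MOD d] := by
        apply Nat.ModEq.add_right_cancel' (∑ i : Fin N, ((b'.1 i.succ : Fin d) : ℕ))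
        exact (Nat.modEq_zero_iff_dvd.mpr h3).trans (Nat.modEq_zero_iff_dvd.mpr h4).symm
      exact Nat.ModEq.eq_of_lt_of_lt h7 (b.1 0).2 (b'.1 0).2
    funext i
    refine Fin.cases ?_ ?_ i
    · exact Fin.ext h6
    · exact h2
  · intro b'
    let S : ℕ := ∑ i : Fin N, ((b' i : Fin d) : ℕ)
    let c : Fin d := ⟨(d - S % d) % d, Nat.mod_lt _ hd⟩
    refine ⟨⟨Fin.cons c b', ?_⟩, ?_⟩
    · rw [Fin.sum_univ_succ]
      simp only [Fin.cons_zero, Fin.cons_succ]
      have h2 : (d - S % d) % d + S ≡ 0 [MOD d] := by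
        have h3 : (d - S % d) % d + S ≡ (d - S % d) + S % d [MOD d] :=
          Nat.ModEq.add (Nat.mod_modEq _ _) (Nat.mod_modEq _ _).symm
        have h4 : (d - S % d) + S % d = d := Nat.sub_add_cancel (Nat.mod_lt _ hd).le
        rw [h4] at h3
        exact h3.trans (Nat.modEq_zero_iff_dvd.mpr dvd_rfl)
      exact Nat.modEq_zero_iff_dvd.mp h2
    · funext i
      simp

theorem topc_coeff_eval {N : ℕ} (G : MvPolynomial (Fin (N + 1)) (Polynomial QQ))
    (y : Fin (N + 1) → QQ) (k : ℕ) :
    (eval (fun j => Polynomial.C (y j)) G).coeff k = eval y (topc k G) := by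
  rw [eval_eq', Polynomial.finsetSum_coeff]
  unfold topc
  rw [map_sum]
  apply Finset.sum_congr rfl
  intro e _
  rw [eval_monomial, Finsupp.prod_fintype _ _ (by simp)]
  simp only [← Polynomial.C_pow, ← map_prod]
  rw [Polynomial.coeff_mul_C]

theorem eval_aeval' {ι A : Type} [CommRing A] (g : ι → MvPolynomial ι A) (x : ι → A)
    (p : MvPolynomial ι A) : eval x (aeval g p) = eval (fun j => eval x (g j)) p := by
  induction p using MvPolynomial.induction_on with
  | C a => simp
  | add p q hp hq => rw [map_add, map_add, hp, hq, map_add]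
  | mul_X p i hp => rw [map_mul, map_mul, hp, map_mul, aeval_X, eval_X]

theorem eval_smul_hom {ι : Type} {n : ℕ} {p : MvPolynomial ι QQ} (hp : p.IsHomogeneous n) (a : QQ)
    (y : ι → QQ) : eval (fun j => a * y j) p = a ^ n * eval y p := by
  rw [eval_eq, eval_eq, Finset.mul_sum]
  apply Finset.sum_congr rfl
  intro e he
  have h1 : ∑ i ∈ e.support, e i = n := by
    rw [hp.degree_eq_sum_deg_support he]
  simp only [mul_pow, Finset.prod_mul_distrib]
  rw [Finset.prod_pow_eq_pow_sum, h1]
  ring

theorem eval_mapC {ι : Type} (x : ι → QQ) (p : MvPolynomial ι QQ) :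
    eval (fun i => Polynomial.C (x i)) (MvPolynomial.map Polynomial.C p) =
      Polynomial.C (eval x p) := by
  induction p using MvPolynomial.induction_on with
  | C a => simp
  | add p q hp hq => rw [map_add, map_add, hp, hq, map_add, map_add]
  | mul_X p i hp => rw [map_mul, map_mul, hp, map_mul, map_X, eval_X, eval_X, map_mul]

/-- The main inequality. -/
theorem main_ineq {N d : ℕ} (hd : 0 < d) (φ : RatMap N d) (hdom : φ.Dominant) :
    ∃ U : Set (PN N), IsZariskiOpen U ∧ U.Nonempty ∧ ∃ C : ℝ, ∀ P ∈ U, φ.DefinedAt P →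
      d * ht P ≤ (d : ℝ) ^ N * absHeight (φ.val P) + C := by
  let l : MvPolynomial (Fin (N + 1)) (Polynomial QQ) :=
    ∑ i : Fin (N + 1), C (Polynomial.X ^ (i : ℕ)) * X i
  let f : Fin (N + 1) → MvPolynomial (Fin (N + 1)) (Polynomial QQ) :=
    fun j => MvPolynomial.map Polynomial.C (φ.f j)
  have hf : ∀ j, (f j).IsHomogeneous d := fun j => (φ.homog j).map _
  have hl : l.IsHomogeneous 1 := by
    apply IsHomogeneous.sum
    intro i _
    exact isHomogeneous_C_mul_X _ _
  have hε : MvPolynomial.map (Polynomial.evalRingHom (0 : QQ)) l = X 0 := by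
    simp only [l, map_sum, map_mul, map_C, map_X]
    rw [Finset.sum_eq_single 0]
    · simp
    · intro b _ hb
      have : (Polynomial.evalRingHom (0 : QQ)) (Polynomial.X ^ (b : ℕ)) = 0 := by
        simp only [Polynomial.coe_evalRingHom, Polynomial.eval_pow, Polynomial.eval_X]
        apply zero_pow
        intro h
        exact hb (Fin.ext h)
      rw [this]; simp
    · intro h; exact absurd (Finset.mem_univ _) h
  obtain ⟨G, hG0, hGh, hGd⟩ := elim (Polynomial.evalRingHom (0 : QQ)) hd hf hl hε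
  rw [card_bt hd] at hGh
  -- evaluation
  have hev : ∀ P : PN N, eval (fun i => Polynomial.C (P.rep i)) (aeval f G)
      = eval (fun j => Polynomial.C (φ.val P j)) G := by
    intro P
    rw [eval_aeval']
    congr 2
    funext j
    exact eval_mapC _ _
  have hevl : ∀ P : PN N, eval (fun i => Polynomial.C (P.rep i)) l = lin P.rep := by
    intro P
    simp only [l, map_sum, map_mul, eval_C, eval_X]
    rfl
  -- bound for the degree in the parameter
  let K : ℕ := G.support.sup (fun e => (coeff e G).natDegree)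
  have hK : ∀ e, (coeff e G).natDegree ≤ K := by
    intro e
    by_cases he : e ∈ G.support
    · exact Finset.le_sup (f := fun e => (coeff e G).natDegree) he
    · rw [notMem_support_iff.mp he]; simp
  have hgdeg : ∀ y : Fin (N + 1) → QQ, (eval (fun j => Polynomial.C (y j)) G).natDegree ≤ K := by
    intro y
    rw [eval_eq']
    apply Polynomial.natDegree_sum_le_of_forall_le
    intro e _
    simp only [← Polynomial.C_pow, ← map_prod]
    refine Polynomial.natDegree_mul_le.trans ?_
    rw [Polynomial.natDegree_C, add_zero]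
    exact hK e
  let U : Set (PN N) := {P | ∃ H ∈ Set.range (fun k : ℕ => aeval φ.f (topc k G)), eval P.rep H ≠ 0}
  refine ⟨U, ⟨_, ?_, rfl⟩, ?_, ?_⟩
  · rintro H ⟨k, rfl⟩
    exact ⟨_, (topc_hom hGh).aeval _ φ.homog⟩
  · -- nonempty
    obtain ⟨e, he⟩ := MvPolynomial.ne_zero_iff.mp hG0
    have hne : topc (coeff e G).natDegree G ≠ 0 := by
      rw [MvPolynomial.ne_zero_iff]
      refine ⟨e, ?_⟩
      rw [coeff_topc]
      exact Polynomial.leadingCoeff_ne_zero.mpr he
    by_contra hU
    rw [Set.not_nonempty_iff_eq_empty] at hU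
    apply hne
    apply hdom _ _ (topc_hom hGh)
    intro P hP
    have hPU : P ∉ U := by rw [hU]; exact Set.notMem_empty P
    have h1 : eval P.rep (aeval φ.f (topc (coeff e G).natDegree G)) = 0 := by
      by_contra h2
      exact hPU ⟨_, ⟨_, rfl⟩, h2⟩
    rw [eval_aeval'] at h1
    obtain ⟨a, ha⟩ := Projectivization.exists_smul_eq_mk_rep QQ (φ.val P) hP
    have h3 : (φ.app P hP).rep = (a : QQ) • φ.val P := ha.symm
    rw [h3]
    have h4 : (a : QQ) • φ.val P = fun j => (a : QQ) * φ.val P j := rfl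
    rw [h4, eval_smul_hom (topc_hom hGh)]
    have h5 : eval (φ.val P) (topc (coeff e G).natDegree G) = 0 := h1
    rw [h5, mul_zero]
  · obtain ⟨C1, hC1⟩ := lin_pow_bound N d
    obtain ⟨C2, hC2⟩ := coeff_bound (M := d * N + K) G hGh
    refine ⟨C1 + C2 + Real.log (2 ^ (d * N) * 2 ^ K * (d * N + K + 1 : ℕ)), ?_⟩
    intro P hP hdef
    obtain ⟨_, ⟨k, rfl⟩, hk⟩ := hP
    have hk' : eval (φ.val P) (topc k G) ≠ 0 := by
      rw [eval_aeval'] at hk
      exact hk
    have hg0 : eval (fun j => Polynomial.C (φ.val P j)) G ≠ 0 := by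
      intro h0
      apply hk'
      rw [← topc_coeff_eval, h0, Polynomial.coeff_zero]
    obtain ⟨R, hR⟩ := hGd
    have hfac : eval (fun j => Polynomial.C (φ.val P j)) G =
        (lin P.rep) ^ d * eval (fun i => Polynomial.C (P.rep i)) R := by
      rw [← hev P, hR, map_mul, map_pow, hevl]
    set r := eval (fun i => Polynomial.C (P.rep i)) R with hr
    have hr0 : r ≠ 0 := by
      intro h0
      rw [h0, mul_zero] at hfac
      exact hg0 hfac
    have hx0 : P.rep ≠ 0 := P.rep_nonzero
    have hl0 : (lin P.rep) ^ d ≠ 0 := pow_ne_zero _ (lin_ne_zero hx0)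
    have hrdeg : r.natDegree ≤ K := by
      have h1 := hgdeg (φ.val P)
      rw [hfac, Polynomial.natDegree_mul hl0 hr0] at h1
      omega
    have h1 := gelfond ((lin P.rep) ^ d) r hl0 hr0 (m := d * N) (n := K)
      (Polynomial.natDegree_pow_le.trans (Nat.mul_le_mul_left _ (lin_natDegree _))) hrdeg
    rw [← hfac] at h1
    have h2 := hC1 P.rep hx0
    have h3 := hC2 (φ.val P) hdef
    have h4 := absHeight_nonneg (fun j : Fin (K + 1) => r.coeff j)
    rw [Nat.cast_pow] at h3
    unfold ht
    linarith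

end Pool.Agent.Helper14.HLower
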