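import Mathlib
import Pool.Agent.Helper14.HDefs
import Pool.Agent.Helper14.AbsHeight
import Pool.Agent.Helper14.HLower

set_option autoImplicit false

open MvPolynomial Pool.Agent.Helper14.HDefs Pool.Agent.Helper14.AbsH Pool.Agent.Helper14.HLower

namespace Pool.Agent.Helper14.HUpper

section heights

theorem absHeight_rat {κ : Type} [Finite κ] (x : κ → ℚ) :
    absHeight (fun i => (algebraMap ℚ QQ (x i))) = Height.logHeight x := by
  let F : IntermediateField ℚ QQ := ⊥
  have hfd : FiniteDimensional ℚ F := inferInstance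
  have := nf_of_fd F
  have hF : ∀ i, algebraMap ℚ QQ (x i) ∈ F := fun i => F.algebraMap_mem (x i)
  rw [absHeight_eq _ F hF]
  have h1 := logHeight_ext (K := ℚ) (L := F) x
  have h2 : (fun i => algebraMap ℚ F (x i)) = fun i => (⟨algebraMap ℚ QQ (x i), hF i⟩ : F) := by
    funext i
    rfl
  rw [h2] at h1
  have h5 : (0 : ℝ) < Module.finrank ℚ F := by
    exact_mod_cast Module.finrank_pos
  rw [h1, mul_div_cancel_left₀ _ h5.ne']

theorem absHeight_nat {κ : Type} [Fintype κ] [Nonempty κ] (x : κ → ℕ) {i0 : κ} (h0 : x i0 = 1) :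
    absHeight (fun i => ((x i : ℕ) : QQ)) = Real.log ((⨆ i, |((x i : ℕ) : ℤ)| : ℤ) : ℝ) := by
  have hg : Finset.univ.gcd (fun i => ((x i : ℕ) : ℤ)) = 1 := by
    have h1 : Finset.univ.gcd (fun i => ((x i : ℕ) : ℤ)) ∣ ((x i0 : ℕ) : ℤ) :=
      Finset.gcd_dvd (Finset.mem_univ i0)
    rw [h0, Nat.cast_one] at h1
    have h2 := Finset.normalize_gcd (s := Finset.univ) (f := fun i => ((x i : ℕ) : ℤ))
    rw [← h2]
    exact normalize_eq_one.mpr (isUnit_of_dvd_one h1)
  have h1 := Rat.logHeight_eq_max_abs_of_gcd_eq_one hg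
  rw [← h1, ← absHeight_rat]
  congr 1

theorem le_absHeight_nat {κ : Type} [Fintype κ] (x : κ → ℕ) {i0 : κ} (h0 : x i0 = 1)
    (j : κ) {a : ℕ} (ha : 0 < a) (hj : a ≤ x j) : Real.log a ≤ absHeight (fun i => ((x i : ℕ) : QQ)) := by
  have : Nonempty κ := ⟨i0⟩
  rw [absHeight_nat x h0]
  apply Real.log_le_log (by exact_mod_cast ha)
  have h1 : |((x j : ℕ) : ℤ)| ≤ ⨆ i, |((x i : ℕ) : ℤ)| := by
    exact le_ciSup (f := fun i => |((x i : ℕ) : ℤ)|) (Set.finite_range _).bddAbove j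
  have h2 : (a : ℤ) ≤ ⨆ i, |((x i : ℕ) : ℤ)| := by
    refine le_trans ?_ h1
    rw [Nat.abs_cast]
    exact_mod_cast hj
  exact_mod_cast h2

theorem absHeight_nat_le {κ : Type} [Fintype κ] (x : κ → ℕ) {i0 : κ} (h0 : x i0 = 1)
    {a : ℕ} (ha : ∀ j, x j ≤ a) : absHeight (fun i => ((x i : ℕ) : QQ)) ≤ Real.log a := by
  have : Nonempty κ := ⟨i0⟩
  rw [absHeight_nat x h0]
  have h3 : (1 : ℤ) ≤ ⨆ i, |((x i : ℕ) : ℤ)| := by
    have h1 : |((x i0 : ℕ) : ℤ)| ≤ ⨆ i, |((x i : ℕ) : ℤ)| :=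
      le_ciSup (f := fun i => |((x i : ℕ) : ℤ)|) (Set.finite_range _).bddAbove i0
    rw [h0] at h1
    simpa using h1
  apply Real.log_le_log
  · have : (0 : ℤ) < ⨆ i, |((x i : ℕ) : ℤ)| := by omega
    exact_mod_cast this
  · have h2 : (⨆ i, |((x i : ℕ) : ℤ)|) ≤ (a : ℤ) := by
      apply ciSup_le
      intro j
      rw [Nat.abs_cast]
      exact_mod_cast ha j
    exact_mod_cast h2

end heights

/-- The solution sequence. -/
def sol {A : Type} [CommSemiring A] (d : ℕ) (z : ℕ → A) : ℕ → A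
  | 0 => 1
  | 1 => z 1
  | (i + 2) => z (i + 2) + (sol d z (i + 1)) ^ d

theorem map_sol {A B : Type} [CommSemiring A] [CommSemiring B] (ρ : A →+* B) (d : ℕ) (z : ℕ → A) :
    ∀ n : ℕ, ρ (sol d z n) = sol d (fun i => ρ (z i)) n
  | 0 => map_one ρ
  | 1 => rfl
  | (n + 2) => by
    rw [sol, sol, map_add, map_pow, map_sol ρ d z (n + 1)]

theorem sol_ge (d : ℕ) (hd : 0 < d) (z : ℕ → ℕ) : ∀ n : ℕ, (z 1) ^ (d ^ n) ≤ sol d z (n + 1)
  | 0 => by rw [pow_zero, pow_one]; exact le_refl _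
  | (n + 1) => by
    rw [sol]
    calc (z 1) ^ (d ^ (n + 1)) = ((z 1) ^ (d ^ n)) ^ d := by rw [← pow_mul, pow_succ]
      _ ≤ (sol d z (n + 1)) ^ d := Nat.pow_le_pow_left (sol_ge d hd z n) d
      _ ≤ _ := Nat.le_add_left _ _

/-- Extension by zero. -/
def ext0 {A : Type} [CommSemiring A] {N : ℕ} (z : Fin (N + 1) → A) (n : ℕ) : A :=
  if h : n < N + 1 then z ⟨n, h⟩ else 0

theorem ext0_val {A : Type} [CommSemiring A] {N : ℕ} (z : Fin (N + 1) → A) (j : Fin (N + 1)) :
    ext0 z j.1 = z j := by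
  unfold ext0
  rw [dif_pos j.2]

theorem map_ext0 {A B : Type} [CommSemiring A] [CommSemiring B] (ρ : A →+* B) {N : ℕ}
    (z : Fin (N + 1) → A) (n : ℕ) : ρ (ext0 z n) = ext0 (fun i => ρ (z i)) n := by
  unfold ext0
  split_ifs
  · rfl
  · exact map_zero ρ

/-- The example. -/
noncomputable def exf (N d : ℕ) (j : Fin (N + 1)) : MvPolynomial (Fin (N + 1)) QQ :=
  X j * X 0 ^ (d - 1) - (if 2 ≤ j.1 then X ⟨j.1 - 1, by omega⟩ ^ d else 0)

theorem exf_homog {N d : ℕ} (hd : 0 < d) (j : Fin (N + 1)) : (exf N d j).IsHomogeneous d := by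
  unfold exf
  apply IsHomogeneous.sub
  · have h := (isHomogeneous_X QQ j).mul ((isHomogeneous_X QQ (0 : Fin (N + 1))).pow (d - 1))
    have : 1 + 1 * (d - 1) = d := by omega
    rwa [this] at h
  · split_ifs
    · have h := (isHomogeneous_X QQ (⟨j.1 - 1, by omega⟩ : Fin (N + 1))).pow d
      rwa [one_mul] at h
    · exact isHomogeneous_zero _ _ _

theorem eval_exf {N d : ℕ} (x : Fin (N + 1) → QQ) (hx : x 0 = 1) (j : Fin (N + 1)) :
    eval x (exf N d j) = x j - (if 2 ≤ j.1 then x ⟨j.1 - 1, by omega⟩ ^ d else 0) := by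
  unfold exf
  rw [map_sub, map_mul, map_pow, eval_X, eval_X, hx, one_pow, mul_one]
  split_ifs
  · rw [map_pow, eval_X]
  · rw [map_zero]

theorem eval_exf_sol {N d : ℕ} (z : Fin (N + 1) → QQ) (j : Fin (N + 1)) :
    eval (fun j : Fin (N + 1) => sol d (ext0 z) j.1) (exf N d j) = if j = 0 then 1 else z j := by
  rw [eval_exf _ rfl]
  obtain ⟨n, hn⟩ := j
  match n with
  | 0 => simp [sol]
  | 1 =>
    have h1 : (⟨1, hn⟩ : Fin (N + 1)) ≠ 0 := by
      intro h
      have := congrArg Fin.val h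
      simp at this
    rw [if_neg h1, if_neg (by norm_num)]
    rw [sub_zero]
    exact ext0_val z ⟨1, hn⟩
  | (n + 2) =>
    have h1 : (⟨n + 2, hn⟩ : Fin (N + 1)) ≠ 0 := by
      intro h
      have := congrArg Fin.val h
      simp at this
    rw [if_neg h1, if_pos (by simp)]
    have h2 : sol d (ext0 z) (n + 2) = ext0 z (n + 2) + (sol d (ext0 z) (n + 1)) ^ d := rfl
    simp only [Nat.add_one_sub_one]
    rw [h2, add_sub_cancel_right]
    exact ext0_val z ⟨n + 2, hn⟩

/-- Every point with first coordinate `1` is a solution vector. -/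
theorem exists_param {N d : ℕ} (x : Fin (N + 1) → QQ) (hx : x 0 = 1) :
    ∃ z : Fin (N + 1) → QQ, (fun j : Fin (N + 1) => sol d (ext0 z) j.1) = x := by
  refine ⟨fun j => x j - (if 2 ≤ j.1 then x ⟨j.1 - 1, by omega⟩ ^ d else 0), ?_⟩
  have key : ∀ n (hn : n < N + 1), sol d (ext0 (fun j : Fin (N + 1) =>
      x j - (if 2 ≤ j.1 then x ⟨j.1 - 1, by omega⟩ ^ d else 0))) n = x ⟨n, hn⟩ := by
    intro n
    induction n with
    | zero => intro hn; exact hx.symm
    | succ n ih =>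
      intro hn
      match n, ih with
      | 0, _ =>
        rw [sol, ext0, dif_pos hn, if_neg (by norm_num), sub_zero]
      | (m + 1), ih =>
        rw [sol, ih (by omega), ext0, dif_pos hn, if_pos (by simp)]
        simp
  funext j
  exact key j.1 j.2

theorem exf_coprime {N d : ℕ} (hN : 2 ≤ N) (hd : 2 ≤ d) (g : MvPolynomial (Fin (N + 1)) QQ)
    (hg : ∀ j, g ∣ exf N d j) : IsUnit g := by
  have h0 : exf N d 0 = X 0 ^ d := by
    unfold exf
    rw [if_neg (by simp), sub_zero, ← pow_succ']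
    congr 1
    omega
  have h1 : g ∣ X 0 ^ d := by rw [← h0]; exact hg 0
  obtain ⟨k, hk, hass⟩ := (dvd_prime_pow (X_prime (R := QQ) (i := (0 : Fin (N + 1)))) d).mp h1
  rcases Nat.eq_zero_or_pos k with hk0 | hk0
  · subst hk0
    rw [pow_zero] at hass
    exact (associated_one_iff_isUnit).mp hass
  · exfalso
    have h2 : (X 0 : MvPolynomial (Fin (N + 1)) QQ) ∣ exf N d ⟨2, by omega⟩ := by
      refine dvd_trans ?_ (hg _)
      exact (dvd_pow_self _ (by omega)).trans hass.symm.dvd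
    obtain ⟨q, hq⟩ := h2
    let x : Fin (N + 1) → QQ := fun j => if j.1 = 1 then 1 else 0
    have h3 := congrArg (eval x) hq
    rw [map_mul, eval_X] at h3
    unfold exf at h3
    rw [map_sub, map_mul, map_pow, eval_X, eval_X, if_pos (by simp), map_pow, eval_X] at h3
    have h4 : x 0 = 0 := by simp [x]
    have h5 : x ⟨2 - 1, by omega⟩ = 1 := by simp [x]
    rw [h4, h5, one_pow, zero_mul, zero_pow (by omega), mul_zero, zero_sub] at h3
    exact one_ne_zero (neg_eq_zero.mp h3)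

/-- The example as a rational map. -/
noncomputable def exm {N d : ℕ} (hN : 2 ≤ N) (hd : 2 ≤ d) : RatMap N d where
  f := exf N d
  homog := exf_homog (by omega)
  coprime := exf_coprime hN hd

theorem val_smul {N d : ℕ} (φ : RatMap N d) {v : Fin (N + 1) → QQ} (hv : v ≠ 0) :
    ∃ a : QQ, a ≠ 0 ∧ φ.val (Projectivization.mk QQ v hv) = a • (fun j => eval v (φ.f j)) := by
  obtain ⟨a, ha⟩ := Projectivization.exists_smul_eq_mk_rep QQ v hv
  refine ⟨(a : QQ) ^ d, pow_ne_zero _ (Units.ne_zero a), ?_⟩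
  funext j
  unfold RatMap.val
  rw [← ha]
  have h4 : a • v = fun j => (a : QQ) * v j := rfl
  rw [h4, eval_smul_hom (φ.homog j)]
  rfl

/-- A form that does not vanish identically does not vanish at some point with first
coordinate `1`. -/
theorem exists_affine {N n : ℕ} {G : MvPolynomial (Fin (N + 1)) QQ} (hG : G.IsHomogeneous n)
    (h0 : G ≠ 0) : ∃ x : Fin (N + 1) → QQ, x 0 = 1 ∧ eval x G ≠ 0 := by
  have h1 : X 0 * G ≠ 0 := mul_ne_zero (X_ne_zero 0) h0
  have h2 : ∃ x : Fin (N + 1) → QQ, eval x (X 0 * G) ≠ 0 := by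
    by_contra h
    push Not at h
    apply h1
    apply MvPolynomial.funext
    intro x
    rw [h x, map_zero]
  obtain ⟨x, hx⟩ := h2
  rw [map_mul, eval_X] at hx
  have hx0 : x 0 ≠ 0 := left_ne_zero_of_mul hx
  have hxG : eval x G ≠ 0 := right_ne_zero_of_mul hx
  refine ⟨fun j => (x 0)⁻¹ * x j, inv_mul_cancel₀ hx0, ?_⟩
  rw [eval_smul_hom hG]
  exact mul_ne_zero (pow_ne_zero _ (inv_ne_zero hx0)) hxG

theorem exm_dominant {N d : ℕ} (hN : 2 ≤ N) (hd : 2 ≤ d) : (exm hN hd).Dominant := by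
  intro n G hG hvan
  by_contra h0
  obtain ⟨y, hy0, hyG⟩ := exists_affine hG h0
  let x : Fin (N + 1) → QQ := fun j => sol d (ext0 y) j.1
  have hx0 : x 0 = 1 := rfl
  have hxne : x ≠ 0 := by
    intro h
    have := congrFun h 0
    rw [hx0] at this
    exact one_ne_zero this
  have hfx : (fun j => eval x ((exm hN hd).f j)) = y := by
    funext j
    have h1 : eval x ((exm hN hd).f j) = if j = 0 then 1 else y j := eval_exf_sol y j
    rw [h1]
    split_ifs with h
    · rw [h, hy0]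
    · rfl
  obtain ⟨a, ha, hval⟩ := val_smul (exm hN hd) hxne
  rw [hfx] at hval
  have hy : y ≠ 0 := by
    intro h
    have := congrFun h 0
    rw [hy0] at this
    exact one_ne_zero this
  have hdef : (exm hN hd).DefinedAt (Projectivization.mk QQ x hxne) := by
    unfold RatMap.DefinedAt
    rw [hval]
    exact smul_ne_zero ha hy
  have h1 := hvan _ hdef
  obtain ⟨b, hb⟩ := Projectivization.exists_smul_eq_mk_rep QQ _ hdef
  have h3 : ((exm hN hd).app _ hdef).rep = (b : QQ) • (exm hN hd).val _ := hb.symm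
  rw [h3, hval] at h1
  have h4 : (b : QQ) • a • y = fun j => ((b : QQ) * a) * y j := by
    funext j
    simp only [Pi.smul_apply, smul_eq_mul, mul_assoc]
  rw [h4, eval_smul_hom hG] at h1
  exact mul_ne_zero (pow_ne_zero _ (mul_ne_zero (Units.ne_zero b) ha)) hyG h1

/-- The parametrized form. -/
noncomputable def pullb {N : ℕ} (d : ℕ) (H : MvPolynomial (Fin (N + 1)) QQ) :
    MvPolynomial (Fin (N + 1)) QQ :=
  aeval (fun j : Fin (N + 1) => sol d (ext0 (fun i => (X i : MvPolynomial (Fin (N + 1)) QQ))) j.1) H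

theorem eval_pullb {N : ℕ} (d : ℕ) (H : MvPolynomial (Fin (N + 1)) QQ) (z : Fin (N + 1) → QQ) :
    eval z (pullb d H) = eval (fun j : Fin (N + 1) => sol d (ext0 z) j.1) H := by
  unfold pullb
  rw [eval_aeval']
  congr 2
  funext j
  rw [map_sol]
  congr 1
  funext i
  rw [map_ext0]
  congr 1
  funext k
  exact eval_X k

theorem pullb_ne_zero {N n : ℕ} (d : ℕ) {H : MvPolynomial (Fin (N + 1)) QQ} (hH : H.IsHomogeneous n)
    (h0 : H ≠ 0) : pullb d H ≠ 0 := by
  obtain ⟨x, hx0, hxH⟩ := exists_affine hH h0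
  obtain ⟨z, hz⟩ := exists_param (d := d) x hx0
  intro h
  apply hxH
  rw [← hz, ← eval_pullb, h, map_zero]

/-- Natural number parameters. -/
theorem exists_nat_param {N n : ℕ} (hN : 2 ≤ N) (d : ℕ) {H : MvPolynomial (Fin (N + 1)) QQ}
    (hH : H.IsHomogeneous n) (h0 : H ≠ 0) (T : ℕ) :
    ∃ k : Fin (N + 1) → ℕ, T ≤ k ⟨1, by omega⟩ ∧ (∀ j, k j ≤ k ⟨1, by omega⟩) ∧
      eval (fun j : Fin (N + 1) => sol d (ext0 (fun i => ((k i : ℕ) : QQ))) j.1) H ≠ 0 := by
  classical
  let m : ℕ := (pullb d H).totalDegree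
  let i1 : Fin (N + 1) := ⟨1, by omega⟩
  let S : Fin (N + 1) → Finset QQ := fun j =>
    if j = i1 then (Finset.range (m + 1)).image (fun a : ℕ => ((a + (T + m) : ℕ) : QQ))
    else (Finset.range (m + 1)).image (fun a : ℕ => ((a : ℕ) : QQ))
  have hcard : ∀ j, (S j).card = m + 1 := by
    intro j
    simp only [S]
    split_ifs
    · rw [Finset.card_image_of_injective, Finset.card_range]
      intro a b hab
      have := Nat.cast_injective hab
      omega
    · rw [Finset.card_image_of_injective, Finset.card_range]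
      exact Nat.cast_injective
  have hex : ∃ z : Fin (N + 1) → QQ, (∀ j, z j ∈ S j) ∧ eval z (pullb d H) ≠ 0 := by
    by_contra hcon
    push Not at hcon
    apply pullb_ne_zero d hH h0
    apply eq_zero_of_eval_zero_at_prod_finset _ S
    · intro j
      rw [hcard]
      exact Nat.lt_succ_of_le (degreeOf_le_totalDegree _ _)
    · exact hcon
  obtain ⟨z, hzS, hz⟩ := hex
  have hk : ∀ j, ∃ k : ℕ, z j = (k : QQ) ∧ (j = i1 → T + m ≤ k) ∧ (j ≠ i1 → k ≤ m) := by
    intro j
    have h1 := hzS j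
    simp only [S] at h1
    split_ifs at h1 with h2
    · obtain ⟨a, ha, hza⟩ := Finset.mem_image.mp h1
      exact ⟨a + (T + m), hza.symm, fun _ => by omega, fun h => absurd h2 h⟩
    · obtain ⟨a, ha, hza⟩ := Finset.mem_image.mp h1
      rw [Finset.mem_range] at ha
      exact ⟨a, hza.symm, fun h => absurd h h2, fun _ => by omega⟩
  choose k hkz hk1 hk2 using hk
  refine ⟨k, ?_, ?_, ?_⟩
  · have := hk1 i1 rfl
    change T ≤ k i1
    omega
  · intro j
    change k j ≤ k i1
    by_cases h : j = i1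
    · rw [h]
    · have := hk1 i1 rfl
      have := hk2 j h
      omega
  · have : z = fun i => ((k i : ℕ) : QQ) := funext hkz
    rw [← this, ← eval_pullb]
    exact hz

theorem exm_mu {N d : ℕ} (hN : 2 ≤ N) (hd : 2 ≤ d) :
    (exm hN hd).mu ≤ ((((d : ℝ) ^ (N - 1))⁻¹ : ℝ) : EReal) := by
  unfold RatMap.mu
  apply iSup₂_le
  rintro U ⟨⟨S, hS, hUS⟩, ⟨Q, hQ⟩⟩
  rw [hUS] at hQ
  obtain ⟨H, hHS, hHQ⟩ := hQ
  obtain ⟨n, hHn⟩ := hS H hHS
  have hH0 : H ≠ 0 := by
    rintro rfl
    exact hHQ (map_zero _)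
  apply Filter.liminf_le_of_frequently_le'
  rw [Filter.frequently_iff]
  intro V hV
  rw [Filter.mem_inf_iff] at hV
  obtain ⟨V1, hV1, V2, hV2, rfl⟩ := hV
  rw [Filter.mem_comap] at hV1
  obtain ⟨W, hW, hWV⟩ := hV1
  rw [Filter.mem_atTop_sets] at hW
  obtain ⟨B, hB⟩ := hW
  obtain ⟨T, hT⟩ := exists_nat_ge (Real.exp B)
  obtain ⟨k, hk1, hk2, hk3⟩ := exists_nat_param hN d hHn hH0 (T + 2)
  let i1 : Fin (N + 1) := ⟨1, by omega⟩
  change T + 2 ≤ k i1 at hk1
  change ∀ j, k j ≤ k i1 at hk2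
  -- the natural number solution
  let xs : Fin (N + 1) → ℕ := fun j => sol d (ext0 k) j.1
  have hxs0 : xs 0 = 1 := rfl
  have hcast : (fun j : Fin (N + 1) => sol d (ext0 (fun i => ((k i : ℕ) : QQ))) j.1) =
      fun j => ((xs j : ℕ) : QQ) := by
    funext j
    have h1 := map_sol (Nat.castRingHom QQ) d (ext0 k) j.1
    have h2 : (fun i => (Nat.castRingHom QQ) (ext0 k i)) = ext0 (fun i => ((k i : ℕ) : QQ)) := by
      funext i
      exact map_ext0 (Nat.castRingHom QQ) k i
    rw [h2] at h1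
    exact h1.symm
  rw [hcast] at hk3
  set x : Fin (N + 1) → QQ := fun j => ((xs j : ℕ) : QQ) with hx
  have hx0 : x 0 = 1 := by simp [hx, hxs0]
  have hxne : x ≠ 0 := by
    intro h
    have := congrFun h 0
    rw [hx0] at this
    exact one_ne_zero this
  let y : Fin (N + 1) → ℕ := fun j => if j = 0 then 1 else k j
  have hfx : (fun j => eval x ((exm hN hd).f j)) = fun j => ((y j : ℕ) : QQ) := by
    funext j
    have h1 := eval_exf_sol (d := d) (fun i => ((k i : ℕ) : QQ)) j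
    rw [hcast] at h1
    have h2 : eval x ((exm hN hd).f j) = eval (fun j => ((xs j : ℕ) : QQ)) (exf N d j) := rfl
    rw [h2, h1]
    simp only [y]
    split_ifs
    · simp
    · rfl
  have hy0 : y 0 = 1 := rfl
  let P : PN N := Projectivization.mk QQ x hxne
  obtain ⟨a, ha, hval⟩ := val_smul (exm hN hd) hxne
  rw [hfx] at hval
  have hyne : (fun j => ((y j : ℕ) : QQ)) ≠ 0 := by
    intro h
    have := congrFun h 0
    simp [hy0] at this
  have hdef : (exm hN hd).DefinedAt P := by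
    unfold RatMap.DefinedAt
    rw [hval]
    exact smul_ne_zero ha hyne
  have hPU : P ∈ U := by
    rw [hUS]
    refine ⟨H, hHS, ?_⟩
    obtain ⟨b, hb⟩ := Projectivization.exists_smul_eq_mk_rep QQ x hxne
    have h3 : P.rep = fun j => (b : QQ) * x j := hb.symm
    rw [h3, eval_smul_hom hHn]
    exact mul_ne_zero (pow_ne_zero _ (Units.ne_zero b)) hk3
  have hhtP : ht P = absHeight x := by
    obtain ⟨b, hb⟩ := Projectivization.exists_smul_eq_mk_rep QQ x hxne
    unfold ht
    have h3 : P.rep = (b : QQ) • x := hb.symm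
    rw [h3]
    exact absHeight_smul _ (Units.ne_zero b)
  have hhtf : ht ((exm hN hd).app P hdef) = absHeight (fun j => ((y j : ℕ) : QQ)) := by
    rw [absHeight_val_mk, hval]
    exact absHeight_smul _ ha
  have hk1' : 0 < k i1 := by omega
  -- lower bound of the height of P
  have hlow : (d : ℝ) ^ (N - 1) * Real.log (k i1) ≤ ht P := by
    rw [hhtP]
    have h1 := sol_ge d (by omega) (ext0 k) (N - 1)
    have h2 : ext0 k 1 = k i1 := ext0_val k i1
    have h3 : N - 1 + 1 = N := by omega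
    rw [h2, h3] at h1
    have h4 := le_absHeight_nat xs hxs0 (Fin.last N) (Nat.pow_pos hk1') h1
    have h5 : Real.log (((k i1) ^ (d ^ (N - 1)) : ℕ) : ℝ) = (d : ℝ) ^ (N - 1) * Real.log (k i1) := by
      push_cast
      rw [Real.log_pow]
      push_cast
      ring
    rw [h5] at h4
    exact h4
  have hup : ht ((exm hN hd).app P hdef) ≤ Real.log (k i1) := by
    rw [hhtf]
    apply absHeight_nat_le y hy0
    intro j
    simp only [y]
    split_ifs
    · omega
    · exact hk2 j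
  have hlogpos : 0 < Real.log (k i1) := by
    apply Real.log_pos
    have : 1 < k i1 := by omega
    exact_mod_cast this
  have hdpos : (0 : ℝ) < (d : ℝ) ^ (N - 1) := by
    have : (0 : ℝ) < d := by
      have : 0 < d := by omega
      exact_mod_cast this
    positivity
  have hd1 : (1 : ℝ) ≤ (d : ℝ) ^ (N - 1) := by
    apply one_le_pow₀
    have : 1 ≤ d := by omega
    exact_mod_cast this
  have hPpos : 0 < ht P := lt_of_lt_of_le (mul_pos hdpos hlogpos) hlow
  refine ⟨P, ⟨?_, ?_⟩, ?_⟩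
  · apply hWV
    apply hB
    have h1 : B ≤ Real.log (k i1) := by
      rw [Real.le_log_iff_exp_le (by exact_mod_cast hk1')]
      refine hT.trans ?_
      have : T ≤ k i1 := by omega
      exact_mod_cast this
    calc B ≤ Real.log (k i1) := h1
      _ = 1 * Real.log (k i1) := (one_mul _).symm
      _ ≤ (d : ℝ) ^ (N - 1) * Real.log (k i1) := mul_le_mul_of_nonneg_right hd1 hlogpos.le
      _ ≤ ht P := hlow
  · exact Filter.mem_principal.mp hV2 ⟨hPU, hdef⟩
  · rw [EReal.coe_le_coe_iff]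
    unfold RatMap.ratio
    rw [dif_pos hdef, div_le_iff₀ hPpos]
    calc ht ((exm hN hd).app P hdef) ≤ Real.log (k i1) := hup
      _ = ((d : ℝ) ^ (N - 1))⁻¹ * ((d : ℝ) ^ (N - 1) * Real.log (k i1)) := by
        rw [← mul_assoc, inv_mul_cancel₀ hdpos.ne', one_mul]
      _ ≤ ((d : ℝ) ^ (N - 1))⁻¹ * ht P := mul_le_mul_of_nonneg_left hlow (inv_nonneg.mpr hdpos.le)

end Pool.Agent.Helper14.HUpper
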