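import Mathlib

set_option autoImplicit false

namespace Pool.Agent.Helper14.Parity

open Finset

/-- Residue classes modulo 4 of quadruples. -/
abbrev V : Type := ZMod 4 × ZMod 4 × ZMod 4 × ZMod 4

/-- Reduction modulo 4. -/
def kap (g : ℕ × ℕ × ℕ × ℕ) : V := ((g.1 : ZMod 4), (g.2.1 : ZMod 4), (g.2.2.1 : ZMod 4), (g.2.2.2 : ZMod 4))

/-- The key linear map, of order 12, with sixth power equal to negation. -/
def s (v : V) : V := (v.2.2.2, v.2.2.1, v.2.1 - v.2.2.2, v.1 + v.2.2.1)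

/-- Positive solutions of `a * d + b * c = M`. -/
def Sol (M : ℕ) : Finset (ℕ × ℕ × ℕ × ℕ) :=
  ((range (M + 1)) ×ˢ (range (M + 1)) ×ˢ (range (M + 1)) ×ˢ (range (M + 1))).filter
    (fun g => 0 < g.1 ∧ 0 < g.2.1 ∧ 0 < g.2.2.1 ∧ 0 < g.2.2.2 ∧ g.1 * g.2.2.2 + g.2.1 * g.2.2.1 = M)

theorem mem_Sol {M a b c d : ℕ} :
    (a, b, c, d) ∈ Sol M ↔ 0 < a ∧ 0 < b ∧ 0 < c ∧ 0 < d ∧ a * d + b * c = M := by
  simp only [Sol, mem_filter, mem_product, mem_range]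
  constructor
  · rintro ⟨_, h⟩
    exact h
  · rintro ⟨ha, hb, hc, hd, h⟩
    refine ⟨⟨?_, ?_, ?_, ?_⟩, ha, hb, hc, hd, h⟩ <;> nlinarith

/-- Sum over the region `b < d`. -/
def X (M : ℕ) (f : V → ℤ) : ℤ := ∑ g ∈ (Sol M).filter (fun g => g.2.1 < g.2.2.2), f (kap g)

/-- Sum over the region `d < b`. -/
def Z (M : ℕ) (f : V → ℤ) : ℤ := ∑ g ∈ (Sol M).filter (fun g => g.2.2.2 < g.2.1), f (kap g)

/-- Sum over the region `b = d`. -/
def D (M : ℕ) (f : V → ℤ) : ℤ := ∑ g ∈ (Sol M).filter (fun g => g.2.1 = g.2.2.2), f (kap g)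

/-- Sum over all solutions. -/
def A (M : ℕ) (f : V → ℤ) : ℤ := ∑ g ∈ Sol M, f (kap g)

theorem A_eq (M : ℕ) (f : V → ℤ) : A M f = X M f + Z M f + D M f := by
  unfold A X Z D
  rw [← Finset.sum_filter_add_sum_filter_not (Sol M) (fun g => g.2.1 < g.2.2.2)]
  rw [add_assoc]
  congr 1
  rw [← Finset.sum_filter_add_sum_filter_not ((Sol M).filter (fun g => ¬ g.2.1 < g.2.2.2))
    (fun g => g.2.2.2 < g.2.1)]
  rw [Finset.filter_filter, Finset.filter_filter]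
  congr 1
  · apply Finset.sum_congr _ (fun _ _ => rfl)
    ext g
    simp only [mem_filter]
    constructor
    · rintro ⟨h1, h2, h3⟩; exact ⟨h1, h3⟩
    · rintro ⟨h1, h2⟩; exact ⟨h1, by omega, h2⟩
  · apply Finset.sum_congr _ (fun _ _ => rfl)
    ext g
    simp only [mem_filter]
    constructor
    · rintro ⟨h1, h2, h3⟩; exact ⟨h1, by omega⟩
    · rintro ⟨h1, h2⟩; exact ⟨h1, by omega, by omega⟩

theorem X_eq_Z (M : ℕ) (f : V → ℤ) : X M f = Z M (fun v => f (s v)) := by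
  unfold X Z
  refine Finset.sum_nbij' (fun g => (g.2.2.2 - g.2.1, g.1 + g.2.2.1, g.2.1, g.1))
    (fun g => (g.2.2.2, g.2.2.1, g.2.1 - g.2.2.2, g.1 + g.2.2.1)) ?_ ?_ ?_ ?_ ?_
  · rintro ⟨a, b, c, d⟩ h
    simp only [mem_filter, mem_Sol] at h ⊢
    obtain ⟨⟨ha, hb, hc, hd, h⟩, hlt⟩ := h
    obtain ⟨k, rfl⟩ := Nat.exists_eq_add_of_lt hlt
    refine ⟨⟨by omega, by omega, hb, ha, ?_⟩, by omega⟩
    have : b + k + 1 - b = k + 1 := by omega
    rw [this, ← h]; ring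
  · rintro ⟨a, b, c, d⟩ h
    simp only [mem_filter, mem_Sol] at h ⊢
    obtain ⟨⟨ha, hb, hc, hd, h⟩, hlt⟩ := h
    obtain ⟨k, rfl⟩ := Nat.exists_eq_add_of_lt hlt
    refine ⟨⟨hd, hc, by omega, by omega, ?_⟩, by omega⟩
    have : d + k + 1 - d = k + 1 := by omega
    rw [this, ← h]; ring
  · rintro ⟨a, b, c, d⟩ h
    simp only [mem_filter, mem_Sol] at h ⊢
    obtain ⟨⟨ha, hb, hc, hd, h⟩, hlt⟩ := h
    simp only [Prod.mk.injEq, true_and]
    omega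
  · rintro ⟨a, b, c, d⟩ h
    simp only [mem_filter, mem_Sol] at h ⊢
    obtain ⟨⟨ha, hb, hc, hd, h⟩, hlt⟩ := h
    simp only [Prod.mk.injEq, and_true]
    omega
  · rintro ⟨a, b, c, d⟩ h
    simp only [mem_filter, mem_Sol] at h ⊢
    obtain ⟨⟨ha, hb, hc, hd, h⟩, hlt⟩ := h
    congr 1
    simp only [kap, s, Prod.mk.injEq, true_and]
    refine ⟨?_, ?_⟩
    · push_cast; ring
    · rw [Nat.cast_sub hlt.le]; ring

/-- The weight `χ(a) (-1)^c` on the classes with `b` even. -/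
def w (v : V) : ℤ :=
  if v.2.1 = 0 ∨ v.2.1 = 2 then
    (if v.1 = 1 then 1 else if v.1 = 3 then -1 else 0) * (if v.2.2.1 = 0 ∨ v.2.2.1 = 2 then 1 else -1)
  else 0

/-- The auxiliary weight. -/
def W (v : V) : ℤ :=
  w (s v) - w (s (s v)) + w (s (s (s v))) - w (s (s (s (s v)))) + w (s (s (s (s (s v)))))
    - w (s (s (s (s (s (s v))))))

theorem w_s6 (v : V) : w (s (s (s (s (s (s v)))))) = - w v := by
  revert v; decide +kernel

theorem A_swap1 (M : ℕ) (f : V → ℤ) : A M f = A M (fun v => f (v.2.2.2, v.2.1, v.2.2.1, v.1)) := by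
  unfold A
  refine Finset.sum_nbij' (fun g => (g.2.2.2, g.2.1, g.2.2.1, g.1))
    (fun g => (g.2.2.2, g.2.1, g.2.2.1, g.1)) ?_ ?_ ?_ ?_ ?_
  · rintro ⟨a, b, c, d⟩ h
    rw [mem_Sol] at *
    obtain ⟨ha, hb, hc, hd, h⟩ := h
    exact ⟨hd, hb, hc, ha, by rw [← h]; ring⟩
  · rintro ⟨a, b, c, d⟩ h
    rw [mem_Sol] at *
    obtain ⟨ha, hb, hc, hd, h⟩ := h
    exact ⟨hd, hb, hc, ha, by rw [← h]; ring⟩
  · rintro ⟨a, b, c, d⟩ h; rfl
  · rintro ⟨a, b, c, d⟩ h; rfl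
  · rintro ⟨a, b, c, d⟩ h; rfl

theorem A_swap2 (M : ℕ) (f : V → ℤ) : A M f = A M (fun v => f (v.1, v.2.2.1, v.2.1, v.2.2.2)) := by
  unfold A
  refine Finset.sum_nbij' (fun g => (g.1, g.2.2.1, g.2.1, g.2.2.2))
    (fun g => (g.1, g.2.2.1, g.2.1, g.2.2.2)) ?_ ?_ ?_ ?_ ?_
  · rintro ⟨a, b, c, d⟩ h
    rw [mem_Sol] at *
    obtain ⟨ha, hb, hc, hd, h⟩ := h
    exact ⟨ha, hc, hb, hd, by rw [← h]; ring⟩
  · rintro ⟨a, b, c, d⟩ h
    rw [mem_Sol] at *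
    obtain ⟨ha, hb, hc, hd, h⟩ := h
    exact ⟨ha, hc, hb, hd, by rw [← h]; ring⟩
  · rintro ⟨a, b, c, d⟩ h; rfl
  · rintro ⟨a, b, c, d⟩ h; rfl
  · rintro ⟨a, b, c, d⟩ h; rfl

theorem D_swap (M : ℕ) (f : V → ℤ) : D M f = D M (fun v => f (v.2.2.1, v.2.1, v.1, v.2.2.2)) := by
  unfold D
  refine Finset.sum_nbij' (fun g => (g.2.2.1, g.2.1, g.1, g.2.2.2))
    (fun g => (g.2.2.1, g.2.1, g.1, g.2.2.2)) ?_ ?_ ?_ ?_ ?_
  · rintro ⟨a, b, c, d⟩ h
    simp only [mem_filter, mem_Sol] at *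
    obtain ⟨⟨ha, hb, hc, hd, h⟩, e⟩ := h
    subst e
    exact ⟨⟨hc, hb, ha, hd, by rw [← h]; ring⟩, rfl⟩
  · rintro ⟨a, b, c, d⟩ h
    simp only [mem_filter, mem_Sol] at *
    obtain ⟨⟨ha, hb, hc, hd, h⟩, e⟩ := h
    subst e
    exact ⟨⟨hc, hb, ha, hd, by rw [← h]; ring⟩, rfl⟩
  · rintro ⟨a, b, c, d⟩ h; rfl
  · rintro ⟨a, b, c, d⟩ h; rfl
  · rintro ⟨a, b, c, d⟩ h; rfl

theorem W_sym (v : V) (h : v.1 * v.2.2.2 + v.2.1 * v.2.2.1 = 3) :
    W v + W (v.2.2.2, v.2.1, v.2.2.1, v.1) + W (v.1, v.2.2.1, v.2.1, v.2.2.2)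
      + W (v.2.2.2, v.2.2.1, v.2.1, v.1) = 0 := by
  revert v; decide +kernel

theorem W_diag (v : V) (h : v.1 * v.2.2.2 + v.2.1 * v.2.2.1 = 3) (h2 : v.2.1 = v.2.2.2) :
    W v + W (v.2.2.1, v.2.1, v.1, v.2.2.2) = 0 := by
  revert v; decide +kernel

theorem cast_sol {M : ℕ} (hM : M % 4 = 3) {g : ℕ × ℕ × ℕ × ℕ} (hg : g ∈ Sol M) :
    (kap g).1 * (kap g).2.2.2 + (kap g).2.1 * (kap g).2.2.1 = 3 := by
  obtain ⟨a, b, c, d⟩ := g
  rw [mem_Sol] at hg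
  obtain ⟨_, _, _, _, h⟩ := hg
  simp only [kap]
  have h3 : (M : ZMod 4) = 3 := by
    have : ((M : ℕ) : ZMod 4) = ((3 : ℕ) : ZMod 4) := by
      rw [ZMod.natCast_eq_natCast_iff]
      exact hM
    simpa using this
  rw [← h3, ← h]
  push_cast
  ring

theorem A_W {M : ℕ} (hM : M % 4 = 3) : A M W = 0 := by
  have h1 : A M (fun v => W (v.2.2.2, v.2.1, v.2.2.1, v.1)) = A M W := (A_swap1 M W).symm
  have h2 : A M (fun v => W (v.1, v.2.2.1, v.2.1, v.2.2.2)) = A M W := (A_swap2 M W).symm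
  have h3 : A M (fun v => W (v.2.2.2, v.2.2.1, v.2.1, v.1)) = A M W := by
    rw [← h2, A_swap1 M (fun v => W (v.1, v.2.2.1, v.2.1, v.2.2.2))]
  have h4 : A M W + A M (fun v => W (v.2.2.2, v.2.1, v.2.2.1, v.1))
      + A M (fun v => W (v.1, v.2.2.1, v.2.1, v.2.2.2))
      + A M (fun v => W (v.2.2.2, v.2.2.1, v.2.1, v.1)) = 0 := by
    unfold A
    rw [← Finset.sum_add_distrib, ← Finset.sum_add_distrib, ← Finset.sum_add_distrib]
    apply Finset.sum_eq_zero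
    intro g hg
    exact W_sym (kap g) (cast_sol hM hg)
  rw [h1, h2, h3] at h4
  linarith

theorem D_W {M : ℕ} (hM : M % 4 = 3) : D M W = 0 := by
  have h1 : D M (fun v => W (v.2.2.1, v.2.1, v.1, v.2.2.2)) = D M W := (D_swap M W).symm
  have h4 : D M W + D M (fun v => W (v.2.2.1, v.2.1, v.1, v.2.2.2)) = 0 := by
    unfold D
    rw [← Finset.sum_add_distrib]
    apply Finset.sum_eq_zero
    intro g hg
    rw [mem_filter] at hg
    refine W_diag (kap g) (cast_sol hM hg.1) ?_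
    simp only [kap]
    rw [hg.2]
  rw [h1] at h4
  linarith

/-- The Liouville type identity. -/
theorem X_w {M : ℕ} (hM : M % 4 = 3) : X M w = 0 := by
  have key : ∀ f : V → ℤ, X M f = A M (fun v => f (s v)) - D M (fun v => f (s v))
      - X M (fun v => f (s v)) := by
    intro f
    rw [A_eq, X_eq_Z M f]
    ring
  have e1 := key w
  have e2 := key (fun v => w (s v))
  have e3 := key (fun v => w (s (s v)))
  have e4 := key (fun v => w (s (s (s v))))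
  have e5 := key (fun v => w (s (s (s (s v)))))
  have e6 := key (fun v => w (s (s (s (s (s v))))))
  have e7 : X M (fun v => w (s (s (s (s (s (s v))))))) = - X M w := by
    unfold X
    rw [← Finset.sum_neg_distrib]
    exact Finset.sum_congr rfl (fun g _ => w_s6 _)
  have hA := A_W hM
  have hD := D_W hM
  have hA' : A M W = A M (fun v => w (s v)) - A M (fun v => w (s (s v)))
      + A M (fun v => w (s (s (s v)))) - A M (fun v => w (s (s (s (s v)))))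
      + A M (fun v => w (s (s (s (s (s v)))))) - A M (fun v => w (s (s (s (s (s (s v)))))))  := by
    unfold A W
    simp only [← Finset.sum_add_distrib, ← Finset.sum_sub_distrib]
  have hD' : D M W = D M (fun v => w (s v)) - D M (fun v => w (s (s v)))
      + D M (fun v => w (s (s (s v)))) - D M (fun v => w (s (s (s (s v)))))
      + D M (fun v => w (s (s (s (s (s v)))))) - D M (fun v => w (s (s (s (s (s (s v)))))))  := by
    unfold D W
    simp only [← Finset.sum_add_distrib, ← Finset.sum_sub_distrib]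
  linarith

end Pool.Agent.Helper14.Parity
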